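import Mathlib

open Finset Polynomial

namespace R420.DS

lemma choose_succ_mul_q (n k : ℕ) :
    ((k : ℚ) + 1) * (n.choose (k+1) : ℚ) = ((n : ℚ) - k) * n.choose k := by
  rcases le_or_gt k n with h | h
  · have := Nat.choose_succ_right_eq n k
    have h2 : ((n.choose (k+1) : ℕ) : ℚ) * ((k:ℚ)+1) = (n.choose k : ℚ) * ((n - k : ℕ) : ℚ) := by
      exact_mod_cast this
    rw [Nat.cast_sub h] at h2
    linarith
  · rw [Nat.choose_eq_zero_of_lt h, Nat.choose_eq_zero_of_lt (by omega : n < k+1)]
    simp

lemma choose_top_q (n k : ℕ) :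
    ((n : ℚ) + 1 - k) * ((n+1).choose k : ℚ) = ((n : ℚ) + 1) * n.choose k := by
  rcases le_or_gt k (n+1) with h | h
  · have := Nat.choose_mul_succ_eq n k
    have h2 : ((n.choose k : ℕ) : ℚ) * ((n:ℚ)+1) = ((n+1).choose k : ℚ) * ((n + 1 - k : ℕ) : ℚ) := by
      exact_mod_cast this
    rw [Nat.cast_sub h] at h2
    push_cast at h2
    linarith
  · rw [Nat.choose_eq_zero_of_lt h, Nat.choose_eq_zero_of_lt (by omega : n < k)]
    simp

/-- product formula for binomial coefficients -/
lemma prodId (n m : ℕ) : ∀ k : ℕ,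
    (∑ s ∈ range (k+1), (k.choose s : ℚ) * m.choose s * (n+s).choose (m+k))
      = (n.choose m : ℚ) * n.choose k := by
  intro k
  induction k with
  | zero => simp
  | succ k ih =>
    have hk : ((k:ℚ)+1) ≠ 0 := by positivity
    apply mul_left_cancel₀ hk
    have e1 : ((k:ℚ)+1) * ((n.choose m : ℚ) * n.choose (k+1))
        = ((n:ℚ) - k) * ((n.choose m : ℚ) * n.choose k) := by
      have := choose_succ_mul_q n k
      linear_combination (n.choose m : ℚ) * this
    rw [e1, ← ih]
    -- shift function
    set u : ℕ → ℚ := fun t => (t:ℚ) * (((k+1).choose t : ℚ) - k.choose t) * m.choose t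
      * (n+t).choose (m+k+1) with hu
    have hshift : ∑ s ∈ range (k+1), u (s+1) = ∑ s ∈ range (k+2), u s := by
      rw [Finset.sum_range_succ' u (k+1)]
      simp [hu]
    have e2 : ((n:ℚ) - k) * ∑ s ∈ range (k+1), (k.choose s : ℚ) * m.choose s * (n+s).choose (m+k)
        = (∑ s ∈ range (k+2), (((m:ℚ)+k+1) * (k.choose s : ℚ) * m.choose s
            - (k.choose s : ℚ) * (((m:ℚ) - s) * m.choose s)) * (n+s).choose (m+k+1))
          + ∑ s ∈ range (k+1), u (s+1) := by
      rw [Finset.sum_range_succ _ (k+1), Nat.choose_succ_self, Finset.mul_sum]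
      simp only [Nat.cast_zero, mul_zero, zero_mul, sub_zero, add_zero]
      rw [← Finset.sum_add_distrib]
      refine Finset.sum_congr rfl fun s _ => ?_
      have f1 := choose_succ_mul_q (n+s) (m+k)
      have f2 := choose_succ_mul_q m s
      have f3 : ((n+(s+1)).choose (m+k+1) : ℚ) = (n+s).choose (m+k) + (n+s).choose (m+k+1) := by
        have := Nat.choose_succ_succ' (n+s) (m+k)
        rw [show n + (s+1) = n+s+1 from rfl]
        exact_mod_cast this
      have f4 : ((k+1).choose (s+1) : ℚ) - k.choose (s+1) = k.choose s := by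
        have := Nat.choose_succ_succ' k s
        rw [this]; push_cast; ring
      simp only [hu]
      rw [f4, f3]
      push_cast at f1 ⊢
      have f5 : ((s:ℚ)+1) * (k.choose s : ℚ) * (m.choose (s+1)) = k.choose s * (((m:ℚ)-s) * m.choose s) := by
        linear_combination (k.choose s : ℚ) * f2
      rw [f5]
      linear_combination (-(k.choose s : ℚ) * m.choose s) * f1
    rw [e2, hshift, ← Finset.sum_add_distrib, Finset.mul_sum]
    refine Finset.sum_congr rfl fun s _ => ?_
    have f6 := choose_top_q k s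
    simp only [hu]
    rw [show m + (k+1) = m+k+1 from rfl]
    linear_combination ((m.choose s : ℚ) * (n+s).choose (m+k+1)) * f6

end R420.DS
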