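import Pool.Agent.R420.DS1

open Finset Polynomial

namespace R420.DS

/-- the functional `v^k ↦ C(n,k)` -/
noncomputable def Phi (n : ℕ) (p : ℚ[X]) : ℚ := ((1 + X : ℚ[X]) ^ n * p).coeff n

lemma Phi_add (n : ℕ) (p q : ℚ[X]) : Phi n (p + q) = Phi n p + Phi n q := by
  simp [Phi, mul_add]

lemma Phi_sum {ι : Type*} (n : ℕ) (s : Finset ι) (f : ι → ℚ[X]) :
    Phi n (∑ i ∈ s, f i) = ∑ i ∈ s, Phi n (f i) := by
  simp [Phi, Finset.mul_sum]

lemma Phi_C_mul (n : ℕ) (r : ℚ) (p : ℚ[X]) : Phi n (C r * p) = r * Phi n p := by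
  unfold Phi
  rw [← mul_assoc, mul_comm _ (C r), mul_assoc, Polynomial.coeff_C_mul]

/-- coefficient of `X^i (1+X)^N` -/
lemma coeff_X_mul_one_add (i N n : ℕ) :
    ((X : ℚ[X])^i * (1 + X)^N).coeff n = if i ≤ n then (N.choose (n - i) : ℚ) else 0 := by
  rw [Polynomial.coeff_X_pow_mul']
  split_ifs with h
  · rw [Polynomial.coeff_one_add_X_pow]
  · rfl

lemma Phi_T_pow (n j : ℕ) : Phi n ((X * (1 + X))^j) = ((n + j).choose (2*j) : ℚ) := by
  unfold Phi
  have : ((1 + X : ℚ[X]) ^ n * (X * (1 + X)) ^ j) = X^j * (1+X)^(n+j) := by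
    rw [mul_pow, pow_add]; ring
  rw [this, coeff_X_mul_one_add]
  split_ifs with h
  · congr 1
    rw [← Nat.choose_symm (by omega : n - j ≤ n + j)]
    congr 1; omega
  · rw [Nat.choose_eq_zero_of_lt (by omega)]; simp

lemma Phi_basic (n m s k : ℕ) :
    Phi n (X^(m+k) * (1+X)^s) = ((n+s).choose (m+k+s) : ℚ) := by
  unfold Phi
  have : ((1 + X : ℚ[X]) ^ n * (X^(m+k) * (1 + X) ^ s)) = X^(m+k) * (1+X)^(n+s) := by
    rw [pow_add (1+X)]; ring
  rw [this, coeff_X_mul_one_add]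
  split_ifs with h
  · congr 1
    rw [← Nat.choose_symm (by omega : n - (m+k) ≤ n + s)]
    congr 1; omega
  · rw [Nat.choose_eq_zero_of_lt (by omega)]; simp

/-- Delannoy-type numbers -/
def dd (n a : ℕ) : ℚ := ∑ k ∈ range (a+1), 2^k * (a.choose k : ℚ) * n.choose k

lemma sum_tri (a : ℕ) (f : ℕ → ℕ → ℚ) :
    ∑ s ∈ range (a+1), ∑ i ∈ range (a+1-s), f s (s+i)
      = ∑ k ∈ range (a+1), ∑ s ∈ range (k+1), f s k := by
  have h1 : ∀ s ∈ range (a+1), ∑ i ∈ range (a+1-s), f s (s+i) = ∑ k ∈ Ico s (a+1), f s k := by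
    intro s _
    rw [Finset.sum_Ico_eq_sum_range]
  rw [Finset.sum_congr rfl h1]
  apply Finset.sum_comm'
  intro x y
  simp only [Finset.mem_range, Finset.mem_Ico]
  omega

lemma one_add_two_pow (N : ℕ) :
    ((1 + 2 * X : ℚ[X]))^N = ∑ i ∈ range (N+1), C ((N.choose i : ℚ) * 2^i) * X^i := by
  rw [add_comm, add_pow]
  refine Finset.sum_congr rfl fun i _ => ?_
  simp only [one_pow, mul_one, mul_pow, map_mul, map_pow, map_natCast]
  have : (C (2:ℚ)) = (2 : ℚ[X]) := rfl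
  rw [this]; ring

lemma choose_mul_dd (n m a : ℕ) :
    (n.choose m : ℚ) * dd n a
      = Phi n (X^m * ∑ s ∈ range (a+1),
          C ((a.choose s : ℚ) * m.choose s * 2^s) * ((1+X)^s * (1 + 2*X)^(a-s))) := by
  rw [Finset.mul_sum, Phi_sum]
  have h1 : ∀ s ∈ range (a+1), Phi n (X^m * (C ((a.choose s : ℚ) * m.choose s * 2^s) * ((1+X)^s * (1 + 2*X)^(a-s))))
      = ∑ i ∈ range (a+1-s), (fun s k => (a.choose k : ℚ) * 2^k *
          ((k.choose s : ℚ) * m.choose s * (n+s).choose (m+k))) s (s+i) := by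
    intro s hs
    rw [Finset.mem_range] at hs
    have hs' : a - s + 1 = a + 1 - s := by omega
    have e : (X^m * (C ((a.choose s : ℚ) * m.choose s * 2^s) * ((1+X)^s * (1 + 2*X : ℚ[X])^(a-s))))
        = C ((a.choose s : ℚ) * m.choose s * 2^s) * ∑ i ∈ range (a+1-s),
            C (((a-s).choose i : ℚ) * 2^i) * (X^(m+i) * (1+X)^s) := by
      rw [one_add_two_pow, hs', ← mul_assoc, ← mul_assoc, mul_comm (X^m), mul_assoc, mul_assoc,
        Finset.mul_sum, Finset.mul_sum]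
      congr 1
      refine Finset.sum_congr rfl fun i _ => ?_
      rw [pow_add]; ring
    rw [e, Phi_C_mul, Phi_sum, Finset.mul_sum]
    refine Finset.sum_congr rfl fun i hi => ?_
    rw [Finset.mem_range] at hi
    rw [Phi_C_mul, Phi_basic]
    have h2 : (a.choose (s+i) : ℚ) * ((s+i).choose s) = a.choose s * (a-s).choose i := by
      have := Nat.choose_mul (n := a) (k := s+i) (s := s) (by omega)
      rw [Nat.add_sub_cancel_left] at this
      exact_mod_cast this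
    simp only
    rw [show m + (s+i) = m+i+s by ring]
    have h3 : (2:ℚ)^(s+i) = 2^s*2^i := pow_add _ _ _
    rw [h3]
    linear_combination (-(2^s*2^i) * (m.choose s : ℚ) * (n+s).choose (m+i+s)) * h2
  rw [Finset.sum_congr rfl h1, sum_tri a (fun s k => (a.choose k : ℚ) * 2^k *
          ((k.choose s : ℚ) * m.choose s * (n+s).choose (m+k))), dd, Finset.mul_sum]
  refine Finset.sum_congr rfl fun k _ => ?_
  rw [← Finset.mul_sum, prodId]
  ring

end R420.DS
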