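import Pool.Agent.R420.DS2

open Finset Polynomial

namespace R420.DS

section ring
variable {R : Type*} [CommRing R]

lemma coeff_lin_pow (q T : R) (N i : ℕ) :
    ((C q * X + C T : R[X])^N).coeff i = q^i * T^(N-i) * (N.choose i : R) := by
  have h : (C q * X + C T : R[X])^N = ((X + C T)^N).comp (C q * X) := by
    simp
  rw [h, Polynomial.comp_C_mul_X_coeff, Polynomial.coeff_X_add_C_pow]
  ring

lemma quad_factor (v : R) :
    (X^2 + C (1+2*v) * X + C (v*(1+v)) : R[X]) = (X + C v) * ((X + C v) + 1) := by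
  simp only [map_add, map_mul, map_one]
  have : (C (2:R)) = (2 : R[X]) := rfl
  rw [this]; ring

lemma rodrigues (v : R) (a s : ℕ) :
    ((X^2 + C (1+2*v) * X + C (v*(1+v)) : R[X])^a).coeff (a+s)
      = ∑ m ∈ range (a+1), ((a.choose m : R) * (a+m).choose (a+s)) * v^(m-s) := by
  rw [quad_factor, mul_pow, add_pow (X + C v) 1 a, Finset.mul_sum, Polynomial.finsetSum_coeff]
  refine Finset.sum_congr rfl fun m _ => ?_
  have : (X + C v : R[X])^a * ((X + C v)^m * 1^(a-m) * ((a.choose m : ℕ) : R[X]))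
      = C ((a.choose m : ℕ) : R) * (X + C v)^(a+m) := by
    rw [pow_add, map_natCast]; ring
  rw [this, Polynomial.coeff_C_mul, Polynomial.coeff_X_add_C_pow, Nat.add_sub_add_left]
  ring

lemma lhs_expand (q T : R) (a s : ℕ) :
    ((X^2 + C q * X + C T : R[X])^a).coeff (a+s)
      = ∑ l ∈ range (a+1), (if 2*l ≤ a+s then
          (a.choose l : R) * (q^(a+s-2*l) * T^(a-l-(a+s-2*l)) * ((a-l).choose (a+s-2*l) : R)) else 0) := by
  rw [add_assoc, add_pow (X^2) _ a, Polynomial.finsetSum_coeff]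
  refine Finset.sum_congr rfl fun l _ => ?_
  have : ((X^2)^l * (C q * X + C T : R[X])^(a-l) * ((a.choose l : ℕ) : R[X]))
      = C ((a.choose l : ℕ) : R) * (X^(2*l) * (C q * X + C T)^(a-l)) := by
    rw [map_natCast, pow_mul]; ring
  rw [this, Polynomial.coeff_C_mul, Polynomial.coeff_X_pow_mul']
  split_ifs with h
  · rw [coeff_lin_pow]
  · simp

lemma rhs_expand (q T : R) (a s : ℕ) :
    ((C T + C (q^2) * (X * (1 + X)) : R[X])^a).coeff (a-s)
      = ∑ l ∈ range (a+1), (if a - l ≤ a - s then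
          (a.choose l : R) * (T^l * (q^2)^(a-l) * ((a-l).choose (a-s-(a-l)) : R)) else 0) := by
  rw [add_pow (C T) _ a, Polynomial.finsetSum_coeff]
  refine Finset.sum_congr rfl fun l _ => ?_
  have : ((C T)^l * (C (q^2) * (X * (1+X)) : R[X])^(a-l) * ((a.choose l : ℕ) : R[X]))
      = C (((a.choose l : ℕ) : R) * (T^l * (q^2)^(a-l))) * (X^(a-l) * (1 + X)^(a-l)) := by
    rw [mul_pow, mul_pow]
    simp only [map_mul, map_pow, map_natCast]
    ring
  rw [this, Polynomial.coeff_C_mul, Polynomial.coeff_X_pow_mul']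
  split_ifs with h
  · rw [Polynomial.coeff_one_add_X_pow]; ring
  · simp

lemma symm_step (q T : R) (a s : ℕ) (hs : s ≤ a) :
    T^s * q^(a-s) * ((X^2 + C q * X + C T : R[X])^a).coeff (a+s)
      = ((C T + C (q^2) * (X * (1 + X)) : R[X])^a).coeff (a-s) := by
  rw [lhs_expand, rhs_expand, Finset.mul_sum]
  refine Finset.sum_congr rfl fun l hl => ?_
  rw [Finset.mem_range] at hl
  rcases lt_or_ge l s with h1 | h1
  · rw [if_neg (by omega : ¬ (a - l ≤ a - s))]
    split_ifs with h2
    · rw [Nat.choose_eq_zero_of_lt (by omega : a - l < a + s - 2*l)]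
      simp
    · simp
  · rw [if_pos (by omega : a - l ≤ a - s)]
    have e3 : a - s - (a - l) = l - s := by omega
    rw [e3]
    split_ifs with h2
    · have e1 : a - l - (a + s - 2*l) = l - s := by omega
      have e2 : (a-l).choose (a+s-2*l) = (a-l).choose (l-s) := by
        rw [← Nat.choose_symm (by omega : l - s ≤ a - l)]
        congr 1; omega
      rw [e1, e2]
      have e4 : T^l = T^s * T^(l-s) := by rw [← pow_add]; congr 1; omega
      have e5 : (q^2)^(a-l) = q^(a-s) * q^(a+s-2*l) := by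
        rw [← pow_add, ← pow_mul]; congr 1; omega
      rw [e4, e5]; ring
    · rw [Nat.choose_eq_zero_of_lt (by omega : a - l < l - s)]
      simp

lemma coeff_one_add_two_pow (N i : ℕ) :
    ((1 + 2 * X : R[X])^N).coeff i = (N.choose i : R) * 2^i := by
  have : (1 + 2 * X : R[X]) = C 2 * X + C 1 := by
    have : (C (2:R)) = (2 : R[X]) := rfl
    rw [this, map_one]; ring
  rw [this, coeff_lin_pow]; simp [mul_comm]

/-- integer coefficient -/
def kap (a s j : ℕ) : ℕ :=
  if s ≤ j then ∑ p ∈ antidiagonal (j - s), (a-j).choose p.1 * ((2*j).choose p.2 * 2^p.2) else 0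

lemma coeff_kap (a s j : ℕ) (hs : s ≤ a) (hj : j ≤ a) :
    ((X * (1 + X) : R[X])^(a-j) * (1 + 2 * X)^(2*j)).coeff (a-s) = (kap a s j : R) := by
  rw [mul_pow, mul_assoc, Polynomial.coeff_X_pow_mul', kap]
  by_cases h : s ≤ j
  · rw [if_pos (by omega : a - j ≤ a - s), if_pos h]
    have : a - s - (a - j) = j - s := by omega
    rw [this, Polynomial.coeff_mul]
    push_cast
    refine Finset.sum_congr rfl fun p _ => ?_
    rw [Polynomial.coeff_one_add_X_pow, coeff_one_add_two_pow]
  · rw [if_neg (by omega : ¬ (a - j ≤ a - s)), if_neg h]; simp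

lemma key_ring (v : R) (a s : ℕ) (hs : s ≤ a) :
    (v*(1+v))^s * (1+2*v)^(a-s) *
      (∑ m ∈ range (a+1), ((a.choose m : R) * (a+m).choose (a+s)) * v^(m-s))
      = ∑ j ∈ range (a+1), ((a.choose j : R) * (kap a s j : R)) * (v*(1+v))^j := by
  rw [← rodrigues, symm_step _ _ a s hs]
  have e : (C (v*(1+v)) + C ((1+2*v)^2) * (X * (1 + X)) : R[X])
      = C (v*(1+v)) * (1 + 2*X)^2 + X * (1 + X) := by
    have h : ((1+2*v)^2 : R) = 1 + 4 * (v*(1+v)) := by ring
    rw [h]
    simp only [map_add, map_mul, map_one]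
    have : (C (4:R)) = (4 : R[X]) := rfl
    rw [this]; ring
  rw [e, add_pow, Polynomial.finsetSum_coeff]
  refine Finset.sum_congr rfl fun j hj => ?_
  rw [Finset.mem_range] at hj
  have : ((C (v*(1+v)) * (1 + 2*X)^2)^j * (X * (1 + X) : R[X])^(a-j) * ((a.choose j : ℕ) : R[X]))
      = C ((a.choose j : R) * (v*(1+v))^j) * ((X * (1 + X) : R[X])^(a-j) * (1 + 2 * X)^(2*j)) := by
    rw [mul_pow _ _ j, ← pow_mul]
    simp only [map_mul, map_pow, map_natCast]
    ring
  rw [this, Polynomial.coeff_C_mul, coeff_kap a s j hs (by omega)]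
  ring

end ring

end R420.DS
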