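import Pool.Agent.R420.DS3

open Finset Polynomial

namespace R420.DS

/-- `s_n(a)` for natural `a` -/
def ss (n a : ℕ) : ℚ := ∑ m ∈ range (a+1), ((a.choose m : ℚ) * (a+m).choose m) * n.choose m

/-- integer coefficient -/
def kap' (a s j : ℕ) : ℕ :=
  if s ≤ j then ∑ p ∈ antidiagonal (j - s),
    (a+s).choose (j+s+p.1) * (j.choose s * (j-s).choose p.1) * 2^p.2 else 0

lemma choose_step1 (a m s : ℕ) :
    ((a+m).choose m : ℚ) * m.choose s = (a+s).choose s * (a+m).choose (a+s) := by
  rcases le_or_gt s m with h | h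
  · obtain ⟨t, rfl⟩ := Nat.exists_eq_add_of_le h
    have h1 : ((a+(s+t)).choose (s+t) : ℚ) = (a+(s+t)).factorial / (a.factorial * (s+t).factorial) := by
      rw [show a+(s+t) = (s+t)+a by ring, Nat.cast_add_choose]; ring
    have h2 : ((s+t).choose s : ℚ) = (s+t).factorial / (s.factorial * t.factorial) := Nat.cast_add_choose ℚ
    have h3 : ((a+s).choose s : ℚ) = (a+s).factorial / (a.factorial * s.factorial) := by
      rw [show a+s = s+a by ring, Nat.cast_add_choose]; ring
    have h4 : ((a+(s+t)).choose (a+s) : ℚ) = (a+(s+t)).factorial / ((a+s).factorial * t.factorial) := by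
      rw [show a+(s+t) = (a+s)+t by ring, Nat.cast_add_choose]
    rw [h1, h2, h3, h4]
    have f1 : (a.factorial : ℚ) ≠ 0 := by exact_mod_cast a.factorial_ne_zero
    have f2 : ((s+t).factorial : ℚ) ≠ 0 := by exact_mod_cast (s+t).factorial_ne_zero
    have f3 : (s.factorial : ℚ) ≠ 0 := by exact_mod_cast s.factorial_ne_zero
    have f4 : (t.factorial : ℚ) ≠ 0 := by exact_mod_cast t.factorial_ne_zero
    have f5 : ((a+s).factorial : ℚ) ≠ 0 := by exact_mod_cast (a+s).factorial_ne_zero
    field_simp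
  · rw [Nat.choose_eq_zero_of_lt h, Nat.choose_eq_zero_of_lt (by omega : a+m < a+s)]; simp

lemma choose_step2 (a j s r t : ℕ) (h : s + r + t = j) (hj : j ≤ a) :
    (a.choose j : ℚ) * (a+s).choose s * ((a-j).choose r * (2*j).choose t)
      = (2*j).choose j * ((a+s).choose (j+s+r) * (j.choose s * (j-s).choose r)) := by
  rcases le_or_gt r (a-j) with h0 | h0
  · obtain ⟨e, he⟩ := Nat.exists_eq_add_of_le h0
    have ha : a = j + (r + e) := by omega
    have fe : ∀ n : ℕ, (n.factorial : ℚ) ≠ 0 := fun n => by exact_mod_cast n.factorial_ne_zero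
    have h1 : (a.choose j : ℚ) = a.factorial / (j.factorial * (r+e).factorial) := by
      rw [ha, Nat.cast_add_choose]
    have h2 : ((a+s).choose s : ℚ) = (a+s).factorial / (a.factorial * s.factorial) := by
      rw [show a+s = s+a by ring, Nat.cast_add_choose]; ring
    have h3 : ((a-j).choose r : ℚ) = (r+e).factorial / (r.factorial * e.factorial) := by
      rw [he, Nat.cast_add_choose]
    have h4 : ((2*j).choose t : ℚ) = (2*j).factorial / (t.factorial * (j+s+r).factorial) := by
      rw [show 2*j = t + (j+s+r) by omega, Nat.cast_add_choose]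
    have h5 : ((2*j).choose j : ℚ) = (2*j).factorial / (j.factorial * j.factorial) := by
      rw [show 2*j = j + j by omega, Nat.cast_add_choose]
    have h6 : ((a+s).choose (j+s+r) : ℚ) = (a+s).factorial / ((j+s+r).factorial * e.factorial) := by
      rw [show a+s = (j+s+r) + e by omega, Nat.cast_add_choose]
    have h7 : (j.choose s : ℚ) = j.factorial / (s.factorial * (r+t).factorial) := by
      rw [show j = s + (r+t) by omega, Nat.cast_add_choose]
    have h8 : ((j-s).choose r : ℚ) = (r+t).factorial / (r.factorial * t.factorial) := by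
      rw [show j-s = r+t by omega, Nat.cast_add_choose]
    rw [h1, h2, h3, h4, h5, h6, h7, h8]
    have g1 := fe a
    have g2 := fe j
    have g3 := fe (r+e)
    have g4 := fe s
    have g5 := fe r
    have g6 := fe e
    have g7 := fe t
    have g8 := fe (j+s+r)
    have g9 := fe (r+t)
    field_simp
  · rw [Nat.choose_eq_zero_of_lt h0, Nat.choose_eq_zero_of_lt (by omega : a+s < j+s+r)]; simp

lemma kap_eq (a s j : ℕ) (hj : j ≤ a) :
    (a.choose j : ℚ) * (a+s).choose s * (kap a s j : ℚ) = (2*j).choose j * (kap' a s j : ℚ) := by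
  unfold kap kap'
  split_ifs with h
  · push_cast
    rw [Finset.mul_sum, Finset.mul_sum]
    refine Finset.sum_congr rfl fun p hp => ?_
    rw [Finset.HasAntidiagonal.mem_antidiagonal] at hp
    have := choose_step2 a j s p.1 p.2 (by omega) hj
    linear_combination (2:ℚ)^p.2 * this
  · simp

/-- The coefficients. -/
def bb (a j : ℕ) : ℕ := ∑ s ∈ range (a+1), a.choose s * 2^s * kap' a s j

lemma H_eq (a : ℕ) :
    (∑ m ∈ range (a+1), C ((a.choose m : ℚ) * (a+m).choose m) * (X^m * ∑ s ∈ range (a+1),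
          C ((a.choose s : ℚ) * m.choose s * 2^s) * ((1+X)^s * (1 + 2*X)^(a-s))))
      = ∑ s ∈ range (a+1), ∑ j ∈ range (a+1),
          C ((a.choose s : ℚ) * 2^s * ((a.choose j : ℚ) * (a+s).choose s * (kap a s j : ℚ)))
            * (X * (1 + X))^j := by
  have h1 : ∀ m ∈ range (a+1), C ((a.choose m : ℚ) * (a+m).choose m) * (X^m * ∑ s ∈ range (a+1),
          C ((a.choose s : ℚ) * m.choose s * 2^s) * ((1+X)^s * (1 + 2*X : ℚ[X])^(a-s)))
      = ∑ s ∈ range (a+1), (C ((a.choose s : ℚ) * 2^s * (a+s).choose s) : ℚ[X]) *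
          ((X*(1+X))^s * (1+2*X)^(a-s) * ((((a.choose m : ℕ) : ℚ[X]) * (((a+m).choose (a+s) : ℕ) : ℚ[X])) * X^(m-s))) := by
    intro m _
    rw [Finset.mul_sum, Finset.mul_sum]
    refine Finset.sum_congr rfl fun s _ => ?_
    rcases le_or_gt s m with h | h
    · have hx : (X : ℚ[X])^m = X^s * X^(m-s) := by rw [← pow_add]; congr 1; omega
      have h2 := choose_step1 a m s
      have h3 : C (((a+m).choose m : ℚ) * m.choose s) = (C ((a+s).choose s * (a+m).choose (a+s)) : ℚ[X]) := by
        rw [h2]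
      simp only [map_mul, map_pow, map_natCast] at h3 ⊢
      rw [hx, mul_pow]
      linear_combination ((a.choose m : ℚ[X]) * X^s * X^(m-s) * a.choose s * C 2 ^ s * (1+X)^s * (1+2*X)^(a-s)) * h3
    · rw [Nat.choose_eq_zero_of_lt h, Nat.choose_eq_zero_of_lt (by omega : a+m < a+s)]; simp
  rw [Finset.sum_congr rfl h1, Finset.sum_comm]
  refine Finset.sum_congr rfl fun s hs => ?_
  rw [Finset.mem_range] at hs
  rw [← Finset.mul_sum, ← Finset.mul_sum, key_ring (X : ℚ[X]) a s (by omega), Finset.mul_sum]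
  refine Finset.sum_congr rfl fun j _ => ?_
  simp only [map_mul, map_pow, map_natCast]
  ring

lemma choose_two_mul (n j : ℕ) :
    ((2*j).choose j : ℚ) * (n+j).choose (2*j) = (n.choose j : ℚ) * (n+j).choose j := by
  rcases le_or_gt j n with h | h
  · obtain ⟨t, rfl⟩ := Nat.exists_eq_add_of_le h
    have fe : ∀ n : ℕ, (n.factorial : ℚ) ≠ 0 := fun n => by exact_mod_cast n.factorial_ne_zero
    have h1 : ((2*j).choose j : ℚ) = (2*j).factorial / (j.factorial * j.factorial) := by
      rw [show 2*j = j + j by omega, Nat.cast_add_choose]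
    have h2 : ((j+t+j).choose (2*j) : ℚ) = (j+t+j).factorial / ((2*j).factorial * t.factorial) := by
      rw [show j+t+j = 2*j + t by omega, Nat.cast_add_choose]
    have h3 : ((j+t).choose j : ℚ) = (j+t).factorial / (j.factorial * t.factorial) := Nat.cast_add_choose ℚ
    have h4 : ((j+t+j).choose j : ℚ) = (j+t+j).factorial / (j.factorial * (j+t).factorial) := by
      rw [show j+t+j = j + (j+t) by omega, Nat.cast_add_choose]
    rw [h1, h2, h3, h4]
    have g1 := fe j
    have g2 := fe t
    have g3 := fe (2*j)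
    have g4 := fe (j+t)
    field_simp
  · rw [Nat.choose_eq_zero_of_lt h, Nat.choose_eq_zero_of_lt (by omega : n + j < 2*j)]; simp

theorem dd_mul_ss (n a : ℕ) :
    dd n a * ss n a = ∑ j ∈ range (a+1), (bb a j : ℚ) * ((n.choose j : ℚ) * (n+j).choose j) := by
  have h0 : dd n a * ss n a = Phi n (∑ m ∈ range (a+1), C ((a.choose m : ℚ) * (a+m).choose m) *
        (X^m * ∑ s ∈ range (a+1),
          C ((a.choose s : ℚ) * m.choose s * 2^s) * ((1+X)^s * (1 + 2*X)^(a-s)))) := by
    rw [Phi_sum, ss, Finset.mul_sum]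
    refine Finset.sum_congr rfl fun m _ => ?_
    rw [Phi_C_mul, ← choose_mul_dd]; ring
  rw [h0, H_eq, Phi_sum]
  simp_rw [Phi_sum, Phi_C_mul, Phi_T_pow]
  rw [Finset.sum_comm]
  refine Finset.sum_congr rfl fun j hj => ?_
  rw [Finset.mem_range] at hj
  rw [← choose_two_mul, bb]
  push_cast
  rw [Finset.sum_mul]
  refine Finset.sum_congr rfl fun s _ => ?_
  rw [kap_eq a s j (by omega)]
  ring

end R420.DS
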