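import Pool.Agent.R420.DS4

open Finset

namespace R420.DS

lemma diag_q (n k : ℕ) : ((k:ℚ)+1) * ((n+1).choose (k+1) : ℚ) = ((n:ℚ)+1) * n.choose k := by
  have := Nat.add_one_mul_choose_eq n k
  have h : (((n+1) * n.choose k : ℕ) : ℚ) = (((n+1).choose (k+1) * (k+1) : ℕ) : ℚ) := by
    rw [this]
  push_cast at h
  linarith

/-- `c_j(n)` as a function of `n` -/
def cf (j : ℕ) : ℕ → ℚ := fun n => (n.choose j : ℚ) * (n+j).choose j

lemma cf_succ (i n : ℕ) :
    ((i:ℚ)+1)^2 * cf (i+1) n = ((n:ℚ)*(n+1) - i*(i+1)) * cf i n := by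
  have h1 := choose_succ_mul_q n i
  have h2 : ((i:ℚ)+1) * ((n+(i+1)).choose (i+1) : ℚ) = ((n:ℚ)+i+1) * (n+i).choose i := by
    have := diag_q (n+i) i
    rw [show n + (i+1) = n+i+1 from rfl]
    push_cast at this
    linarith
  unfold cf
  linear_combination ((i:ℚ)+1) * ((n+(i+1)).choose (i+1) : ℚ) * h1 + ((n:ℚ) - i) * (n.choose i : ℚ) * h2

lemma cf_mul (j n : ℕ) : ∀ i : ℕ, cf i n * cf j n
    = ∑ p ∈ range (j+1), (((i+j).choose i : ℚ) * j.choose p * (i+p).choose j) * cf (i+p) n := by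
  intro i
  induction i with
  | zero =>
    rw [Finset.sum_eq_single j]
    · simp [cf]
    · intro p hp hpj
      rw [Finset.mem_range] at hp
      rw [Nat.choose_eq_zero_of_lt (by omega : 0 + p < j)]; simp
    · simp
  | succ i ih =>
    have hk : ((i:ℚ)+1)^2 ≠ 0 := by positivity
    apply mul_left_cancel₀ hk
    have e1 : ((i:ℚ)+1)^2 * (cf (i+1) n * cf j n) = ((n:ℚ)*(n+1) - i*(i+1)) * (cf i n * cf j n) := by
      linear_combination (cf j n) * cf_succ i n
    rw [e1, ih, Finset.mul_sum]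
    set g : ℕ → ℚ := fun p => (((i+j).choose i : ℚ) * j.choose p * (i+p).choose j) *
      ((p:ℚ) * (2*i+p+1)) * cf (i+p) n with hg
    have hshift : ∑ p ∈ range (j+1), g p = ∑ p ∈ range (j+1), g (p+1) := by
      have h1 := Finset.sum_range_succ' g (j+1)
      have h2 := Finset.sum_range_succ g (j+1)
      have h3 : g 0 = 0 := by simp [hg]
      have h4 : g (j+1) = 0 := by simp [hg]
      rw [h3] at h1; rw [h4] at h2
      linarith
    have e2 : ∑ p ∈ range (j+1), ((n:ℚ)*(n+1) - i*(i+1)) *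
          ((((i+j).choose i : ℚ) * j.choose p * (i+p).choose j) * cf (i+p) n)
        = ∑ p ∈ range (j+1), ((((i+j).choose i : ℚ) * j.choose p * (i+p).choose j) *
            ((i:ℚ)+p+1)^2 * cf (i+p+1) n) + ∑ p ∈ range (j+1), g p := by
      rw [← Finset.sum_add_distrib]
      refine Finset.sum_congr rfl fun p _ => ?_
      have := cf_succ (i+p) n
      push_cast at this
      simp only [hg]
      linear_combination (-((i+j).choose i : ℚ) * j.choose p * (i+p).choose j) * this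
    rw [e2, hshift, ← Finset.sum_add_distrib, Finset.mul_sum]
    refine Finset.sum_congr rfl fun p _ => ?_
    simp only [hg]
    have f1 := choose_succ_mul_q j p
    have f2 := choose_top_q (i+p) j
    have f3 : ((i:ℚ)+1) * ((i+1+j).choose (i+1) : ℚ) = ((i:ℚ)+j+1) * (i+j).choose i := by
      have := diag_q (i+j) i
      rw [show i+1+j = i+j+1 by ring]
      push_cast at this
      linarith
    have f4 : i + (p+1) = i + p + 1 := rfl
    have f5 : i + 1 + p = i + p + 1 := by ring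
    rw [f4, f5]
    push_cast at f1 f2 ⊢
    linear_combination (-((i+j).choose i : ℚ) * j.choose p * ((i:ℚ)+p+1) * cf (i+p+1) n) * f2
      + (((i+j).choose i : ℚ) * (i+p+1).choose j * (2*i+p+2) * cf (i+p+1) n) * f1
      - (((i:ℚ)+1) * j.choose p * (i+p+1).choose j * cf (i+p+1) n) * f3

/-- integer span of the `c_j` -/
def MM : AddSubgroup (ℕ → ℚ) := AddSubgroup.closure (Set.range cf)

lemma cf_mem (j : ℕ) : cf j ∈ MM := AddSubgroup.subset_closure ⟨j, rfl⟩

lemma one_mem_MM : (1 : ℕ → ℚ) ∈ MM := by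
  have : cf 0 = 1 := by funext n; simp [cf]
  rw [← this]; exact cf_mem 0

lemma nat_mul_mem (F : ℕ → ℚ) (hF : F ∈ MM) (k : ℕ) : (fun n => (k:ℚ) * F n) ∈ MM := by
  have : (fun n => (k:ℚ) * F n) = k • F := by funext n; simp
  rw [this]; exact AddSubgroup.nsmul_mem _ hF k

lemma cf_mul_mem (i j : ℕ) : cf i * cf j ∈ MM := by
  have : cf i * cf j = ∑ p ∈ range (j+1),
      (fun n => (((i+j).choose i * j.choose p * (i+p).choose j : ℕ) : ℚ) * cf (i+p) n) := by
    funext n
    rw [Pi.mul_apply, cf_mul, Finset.sum_apply]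
    push_cast; rfl
  rw [this]
  exact AddSubgroup.sum_mem _ fun p _ => nat_mul_mem _ (cf_mem _) _

lemma mul_mem_MM (F G : ℕ → ℚ) (hF : F ∈ MM) (hG : G ∈ MM) : F * G ∈ MM := by
  unfold MM at hF
  induction hF using AddSubgroup.closure_induction with
  | mem x hx =>
    obtain ⟨i, rfl⟩ := hx
    unfold MM at hG
    induction hG using AddSubgroup.closure_induction with
    | mem y hy => obtain ⟨j, rfl⟩ := hy; exact cf_mul_mem i j
    | zero => rw [mul_zero]; exact AddSubgroup.zero_mem _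
    | add x y _ _ h1 h2 => rw [mul_add]; exact AddSubgroup.add_mem _ h1 h2
    | neg x _ h1 => rw [mul_neg]; exact AddSubgroup.neg_mem _ h1
  | zero => rw [zero_mul]; exact AddSubgroup.zero_mem _
  | add x y _ _ h1 h2 => rw [add_mul]; exact AddSubgroup.add_mem _ h1 h2
  | neg x _ h1 => rw [neg_mul]; exact AddSubgroup.neg_mem _ h1

lemma pow_mem_MM (F : ℕ → ℚ) (hF : F ∈ MM) (m : ℕ) : F ^ m ∈ MM := by
  induction m with
  | zero => rw [pow_zero]; exact one_mem_MM
  | succ m ih => rw [pow_succ]; exact mul_mem_MM _ _ ih hF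

lemma ds_mem (a : ℕ) : (fun n => dd n a * ss n a) ∈ MM := by
  have : (fun n => dd n a * ss n a) = ∑ j ∈ range (a+1), (fun n => (bb a j : ℚ) * cf j n) := by
    funext n
    rw [dd_mul_ss, Finset.sum_apply]; rfl
  rw [this]
  exact AddSubgroup.sum_mem _ fun p _ => nat_mul_mem _ (cf_mem _) _

lemma sumPlus (j : ℕ) : ∀ n : ℕ, ∑ k ∈ range n, (2*(k:ℚ)+1) * cf j k
    = (n:ℚ) * ((n.choose (j+1) : ℚ) * (n+j).choose j) := by
  intro n
  induction n with
  | zero => simp
  | succ n ih =>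
    rw [Finset.sum_range_succ, ih]
    have hj : ((j:ℚ)+1) ≠ 0 := by positivity
    apply mul_left_cancel₀ hj
    have f1 := choose_succ_mul_q n j
    have f2 := choose_top_q (n+j) j
    have f3 := diag_q n j
    have f5 : n + 1 + j = n + j + 1 := by ring
    rw [f5]
    unfold cf
    push_cast at f2 ⊢
    linear_combination ((n:ℚ) * (n+j).choose j) * f1
      - ((n:ℚ)+1) * ((n+j+1).choose j : ℚ) * f3 - ((n:ℚ)+1) * (n.choose j : ℚ) * f2

lemma sumMinus (j : ℕ) : ∀ n : ℕ, ∑ k ∈ range (n+1), (-1:ℚ)^k * (2*(k:ℚ)+1) * cf j k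
    = (-1)^n * ((n:ℚ)+1) * ((n.choose j : ℚ) * (n+1+j).choose j) := by
  intro n
  induction n with
  | zero =>
    rcases Nat.eq_zero_or_pos j with h | h
    · subst h; simp [cf]
    · simp [cf, Nat.choose_eq_zero_of_lt h]
  | succ n ih =>
    rw [Finset.sum_range_succ, ih]
    have f1 := choose_top_q n j
    have f2 := choose_top_q (n+1+j) j
    have f5 : n + 1 + 1 + j = n + 1 + j + 1 := by ring
    rw [f5]
    unfold cf
    push_cast at f2 ⊢
    rw [pow_succ]
    linear_combination (-(-1:ℚ)^n * ((n+1+j).choose j : ℚ)) * f1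
      + ((-1:ℚ)^n * ((n+1).choose j : ℚ)) * f2

lemma plus_int (F : ℕ → ℚ) (hF : F ∈ MM) (n : ℕ) :
    ∃ z : ℤ, ∑ k ∈ range n, (2*(k:ℚ)+1) * F k = (n:ℚ) * z := by
  unfold MM at hF
  induction hF using AddSubgroup.closure_induction with
  | mem x hx =>
    obtain ⟨j, rfl⟩ := hx
    refine ⟨((n.choose (j+1) * (n+j).choose j : ℕ) : ℤ), ?_⟩
    rw [sumPlus]; push_cast; ring
  | zero => exact ⟨0, by simp⟩
  | add x y _ _ h1 h2 =>
    obtain ⟨z1, h1⟩ := h1
    obtain ⟨z2, h2⟩ := h2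
    refine ⟨z1 + z2, ?_⟩
    push_cast
    rw [mul_add, ← h1, ← h2, ← Finset.sum_add_distrib]
    refine Finset.sum_congr rfl fun k _ => ?_
    rw [Pi.add_apply]; ring
  | neg x _ h1 =>
    obtain ⟨z1, h1⟩ := h1
    refine ⟨-z1, ?_⟩
    push_cast
    rw [mul_neg, ← h1, ← Finset.sum_neg_distrib]
    refine Finset.sum_congr rfl fun k _ => ?_
    rw [Pi.neg_apply]; ring

lemma minus_int (F : ℕ → ℚ) (hF : F ∈ MM) (n : ℕ) :
    ∃ z : ℤ, ∑ k ∈ range n, (-1:ℚ)^k * (2*(k:ℚ)+1) * F k = (n:ℚ) * z := by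
  unfold MM at hF
  induction hF using AddSubgroup.closure_induction with
  | mem x hx =>
    obtain ⟨j, rfl⟩ := hx
    rcases n with _ | n
    · exact ⟨0, by simp⟩
    · refine ⟨(-1)^n * ((n.choose j * (n+1+j).choose j : ℕ) : ℤ), ?_⟩
      rw [sumMinus]; push_cast; ring
  | zero => exact ⟨0, by simp⟩
  | add x y _ _ h1 h2 =>
    obtain ⟨z1, h1⟩ := h1
    obtain ⟨z2, h2⟩ := h2
    refine ⟨z1 + z2, ?_⟩
    push_cast
    rw [mul_add, ← h1, ← h2, ← Finset.sum_add_distrib]
    refine Finset.sum_congr rfl fun k _ => ?_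
    rw [Pi.add_apply]; ring
  | neg x _ h1 =>
    obtain ⟨z1, h1⟩ := h1
    refine ⟨-z1, ?_⟩
    push_cast
    rw [mul_neg, ← h1, ← Finset.sum_neg_distrib]
    refine Finset.sum_congr rfl fun k _ => ?_
    rw [Pi.neg_apply]; ring

end R420.DS
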