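import Pool.Agent.R420.DS5

open Finset

namespace R420.DS

/-- value of `C(x,k)` at a rational `x` -/
def binv (x : ℚ) (k : ℕ) : ℚ := (∏ i ∈ range k, (x - i)) / (k.factorial : ℚ)

lemma binv_nat (a k : ℕ) : binv a k = (a.choose k : ℚ) := by
  induction k with
  | zero => simp [binv]
  | succ k ih =>
    have hf : (k.factorial : ℚ) ≠ 0 := by exact_mod_cast k.factorial_ne_zero
    have hk : ((k:ℚ)+1) ≠ 0 := by positivity
    apply mul_left_cancel₀ hk
    rw [choose_succ_mul_q, ← ih]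
    unfold binv
    rw [Finset.prod_range_succ, Nat.factorial_succ]
    push_cast
    field_simp

lemma binv_neg (x : ℚ) (k : ℕ) : binv (-1 - x) k = (-1)^k * binv (x + k) k := by
  unfold binv
  rw [← Finset.prod_range_reflect (fun i => (x + k - (i:ℚ))) k, ← mul_div_assoc]
  congr 1
  have h1 : ∀ i ∈ range k, (-1 - x - (i:ℚ)) = (-1) * (x + k - ((k - 1 - i : ℕ) : ℚ)) := by
    intro i hi
    rw [Finset.mem_range] at hi
    have : ((k - 1 - i : ℕ) : ℚ) = k - 1 - i := by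
      rw [Nat.sub_sub, Nat.cast_sub (by omega)]; push_cast; ring
    rw [this]; ring
  rw [Finset.prod_congr rfl h1, Finset.prod_mul_distrib, Finset.prod_const, Finset.card_range]

lemma binv_neg_nat (b k : ℕ) : binv (-1 - (b:ℚ)) k = (-1)^k * ((b+k).choose k : ℚ) := by
  rw [binv_neg, ← binv_nat]; push_cast; rfl

lemma binv_neg_nat2 (b k : ℕ) : binv (-1 - (b:ℚ) + k) k = (-1)^k * (b.choose k : ℚ) := by
  have : (-1 - (b:ℚ) + k) = -1 - ((b:ℚ) - k) := by ring
  rw [this, binv_neg, ← binv_nat]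
  congr 2; ring

/-- value of `d_n` at `x` -/
def dv (n : ℕ) (x : ℚ) : ℚ := ∑ k ∈ range (n+1), (2^k * (n.choose k : ℚ)) * binv x k

/-- value of `s_n` at `x` -/
def sv (n : ℕ) (x : ℚ) : ℚ := ∑ k ∈ range (n+1), (n.choose k : ℚ) * (binv x k * binv (x + k) k)

lemma sum_swap_range (n a : ℕ) (f : ℕ → ℚ) (h1 : ∀ k, n < k → f k = 0) (h2 : ∀ k, a < k → f k = 0) :
    ∑ k ∈ range (n+1), f k = ∑ k ∈ range (a+1), f k := by
  have e1 : ∑ k ∈ range (n+1), f k = ∑ k ∈ range (n+a+1), f k := by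
    apply Finset.sum_subset
    · intro k hk; rw [Finset.mem_range] at *; omega
    · intro k _ hk; apply h1; rw [Finset.mem_range] at hk; omega
  have e2 : ∑ k ∈ range (a+1), f k = ∑ k ∈ range (n+a+1), f k := by
    apply Finset.sum_subset
    · intro k hk; rw [Finset.mem_range] at *; omega
    · intro k _ hk; apply h2; rw [Finset.mem_range] at hk; omega
  rw [e1, e2]

lemma dv_nat (n a : ℕ) : dv n a = dd n a := by
  unfold dv dd
  rw [← sum_swap_range n a]
  · refine Finset.sum_congr rfl fun k _ => ?_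
    rw [binv_nat]; ring
  · intro k hk; rw [Nat.choose_eq_zero_of_lt hk]; simp
  · intro k hk; rw [Nat.choose_eq_zero_of_lt hk]; simp

lemma sv_nat (n a : ℕ) : sv n a = ss n a := by
  unfold sv ss
  rw [← sum_swap_range n a]
  · refine Finset.sum_congr rfl fun k _ => ?_
    have : ((a:ℚ) + k) = ((a+k : ℕ) : ℚ) := by push_cast; rfl
    rw [this, binv_nat, binv_nat]; ring
  · intro k hk; rw [Nat.choose_eq_zero_of_lt hk]; simp
  · intro k hk; rw [Nat.choose_eq_zero_of_lt hk]; simp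

lemma sv_neg (n b : ℕ) : sv n (-1 - (b:ℚ)) = sv n b := by
  unfold sv
  refine Finset.sum_congr rfl fun k _ => ?_
  rw [binv_neg_nat, binv_neg_nat2, binv_nat]
  have : ((b:ℚ) + k) = ((b+k : ℕ) : ℚ) := by push_cast; rfl
  rw [this, binv_nat]
  have h : ((-1:ℚ)^k) * (-1)^k = 1 := by rw [← mul_pow]; simp
  linear_combination ((n.choose k : ℚ) * ((b+k).choose k) * (b.choose k)) * h

lemma vander (b k n : ℕ) (hk : k ≤ n) :
    ((b+k).choose k : ℚ) = ∑ i ∈ range (n+1), (b.choose i : ℚ) * k.choose i := by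
  rw [Nat.add_choose_eq, Finset.Nat.sum_antidiagonal_eq_sum_range_succ_mk]
  push_cast
  have e : ∑ i ∈ range (n+1), (b.choose i : ℚ) * k.choose i = ∑ i ∈ range (k+1), (b.choose i : ℚ) * k.choose i := by
    symm
    apply Finset.sum_subset
    · intro i hi; rw [Finset.mem_range] at *; omega
    · intro i _ hi; rw [Finset.mem_range] at hi
      rw [Nat.choose_eq_zero_of_lt (by omega : k < i)]; simp
  rw [e]
  refine Finset.sum_congr rfl fun i hi => ?_
  rw [Finset.mem_range] at hi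
  rw [Nat.choose_symm (by omega : i ≤ k)]

lemma alt_sum (n i : ℕ) : ∑ k ∈ range (n+1), (-2:ℚ)^k * (n.choose k : ℚ) * k.choose i
    = (-1)^n * ((n.choose i : ℚ) * 2^i) := by
  have h1 : (∑ k ∈ range (n+1), Polynomial.C ((-2:ℚ)^k * (n.choose k : ℚ)) * (1 + Polynomial.X)^k).coeff i
      = ∑ k ∈ range (n+1), (-2:ℚ)^k * (n.choose k : ℚ) * k.choose i := by
    rw [Polynomial.finsetSum_coeff]
    refine Finset.sum_congr rfl fun k _ => ?_
    rw [Polynomial.coeff_C_mul, Polynomial.coeff_one_add_X_pow]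
  rw [← h1]
  have h2 : (∑ k ∈ range (n+1), Polynomial.C ((-2:ℚ)^k * (n.choose k : ℚ)) * (1 + Polynomial.X)^k)
      = Polynomial.C ((-1:ℚ)^n) * (1 + 2 * Polynomial.X)^n := by
    have e1 : Polynomial.C ((-1:ℚ)^n) * (1 + 2 * Polynomial.X)^n
        = (Polynomial.C (-2:ℚ) * (1 + Polynomial.X) + 1)^n := by
      rw [Polynomial.C_pow, ← mul_pow]
      congr 1
      have a1 : (Polynomial.C (-1:ℚ)) = -1 := by rw [map_neg, map_one]
      have a2 : (Polynomial.C (-2:ℚ)) = -2 := by rw [map_neg]; rfl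
      rw [a1, a2]; ring
    rw [e1, add_pow]
    refine Finset.sum_congr rfl fun k _ => ?_
    rw [mul_pow, Polynomial.C_mul, Polynomial.C_pow, Polynomial.C_eq_natCast]
    ring
  rw [h2, Polynomial.coeff_C_mul, coeff_one_add_two_pow]

lemma dv_neg (n b : ℕ) : dv n (-1 - (b:ℚ)) = (-1)^n * dv n b := by
  have h1 : dv n (-1 - (b:ℚ)) = ∑ k ∈ range (n+1), ∑ i ∈ range (n+1),
      (b.choose i : ℚ) * ((-2:ℚ)^k * (n.choose k : ℚ) * k.choose i) := by
    unfold dv
    refine Finset.sum_congr rfl fun k hk => ?_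
    rw [Finset.mem_range] at hk
    rw [binv_neg_nat, vander b k n (by omega), Finset.mul_sum, Finset.mul_sum]
    refine Finset.sum_congr rfl fun i _ => ?_
    have : (-2:ℚ)^k = 2^k * (-1)^k := by rw [← mul_pow]; norm_num
    rw [this]; ring
  rw [h1, Finset.sum_comm]
  unfold dv
  rw [Finset.mul_sum]
  refine Finset.sum_congr rfl fun i _ => ?_
  rw [← Finset.mul_sum, alt_sum, binv_nat]; ring

theorem plus_val (m n : ℕ) (a : ℤ) :
    ∃ z : ℤ, ∑ k ∈ range n, (2*(k:ℚ)+1) * (dv k a ^ m * sv k a ^ m) = (n:ℚ) * z := by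
  rcases lt_or_ge a 0 with h | h
  · obtain ⟨b, hb⟩ := Int.eq_ofNat_of_zero_le (by omega : 0 ≤ -1 - a)
    have ha : (a:ℚ) = -1 - (b:ℚ) := by
      have : a = -1 - (b:ℤ) := by omega
      rw [this]; push_cast; rfl
    have hF := pow_mem_MM _ (ds_mem b) m
    rcases Nat.even_or_odd m with he | ho
    · obtain ⟨z, hz⟩ := plus_int _ hF n
      refine ⟨z, ?_⟩
      rw [← hz]
      refine Finset.sum_congr rfl fun k _ => ?_
      rw [ha, dv_neg, sv_neg, dv_nat, sv_nat, Pi.pow_apply]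
      have : ((-1:ℚ)^k)^m = 1 := by rw [← pow_mul, mul_comm, pow_mul, he.neg_one_pow, one_pow]
      rw [mul_pow ((-1:ℚ)^k), this, mul_pow]; ring
    · obtain ⟨z, hz⟩ := minus_int _ hF n
      refine ⟨z, ?_⟩
      rw [← hz]
      refine Finset.sum_congr rfl fun k _ => ?_
      rw [ha, dv_neg, sv_neg, dv_nat, sv_nat, Pi.pow_apply]
      have : ((-1:ℚ)^k)^m = (-1)^k := by rw [← pow_mul, mul_comm, pow_mul, ho.neg_one_pow]
      rw [mul_pow ((-1:ℚ)^k), this, mul_pow]; ring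
  · obtain ⟨b, hb⟩ := Int.eq_ofNat_of_zero_le h
    have ha : (a:ℚ) = (b:ℚ) := by rw [hb]; rfl
    have hF := pow_mem_MM _ (ds_mem b) m
    obtain ⟨z, hz⟩ := plus_int _ hF n
    refine ⟨z, ?_⟩
    rw [← hz]
    refine Finset.sum_congr rfl fun k _ => ?_
    rw [ha, dv_nat, sv_nat, Pi.pow_apply, mul_pow]

theorem minus_val (m n : ℕ) (a : ℤ) :
    ∃ z : ℤ, ∑ k ∈ range n, (-1:ℚ)^k * (2*(k:ℚ)+1) * (dv k a ^ m * sv k a ^ m) = (n:ℚ) * z := by
  rcases lt_or_ge a 0 with h | h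
  · obtain ⟨b, hb⟩ := Int.eq_ofNat_of_zero_le (by omega : 0 ≤ -1 - a)
    have ha : (a:ℚ) = -1 - (b:ℚ) := by
      have : a = -1 - (b:ℤ) := by omega
      rw [this]; push_cast; rfl
    have hF := pow_mem_MM _ (ds_mem b) m
    rcases Nat.even_or_odd m with he | ho
    · obtain ⟨z, hz⟩ := minus_int _ hF n
      refine ⟨z, ?_⟩
      rw [← hz]
      refine Finset.sum_congr rfl fun k _ => ?_
      rw [ha, dv_neg, sv_neg, dv_nat, sv_nat, Pi.pow_apply]
      have : ((-1:ℚ)^k)^m = 1 := by rw [← pow_mul, mul_comm, pow_mul, he.neg_one_pow, one_pow]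
      rw [mul_pow ((-1:ℚ)^k), this, mul_pow]; ring
    · obtain ⟨z, hz⟩ := plus_int _ hF n
      refine ⟨z, ?_⟩
      rw [← hz]
      refine Finset.sum_congr rfl fun k _ => ?_
      rw [ha, dv_neg, sv_neg, dv_nat, sv_nat, Pi.pow_apply]
      have : ((-1:ℚ)^k)^m = (-1)^k := by rw [← pow_mul, mul_comm, pow_mul, ho.neg_one_pow]
      have h2 : ((-1:ℚ)^k) * (-1)^k = 1 := by rw [← mul_pow]; simp
      rw [mul_pow ((-1:ℚ)^k), this, mul_pow]
      linear_combination ((2*(k:ℚ)+1) * dd k b ^ m * ss k b ^ m) * h2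
  · obtain ⟨b, hb⟩ := Int.eq_ofNat_of_zero_le h
    have ha : (a:ℚ) = (b:ℚ) := by rw [hb]; rfl
    have hF := pow_mem_MM _ (ds_mem b) m
    obtain ⟨z, hz⟩ := minus_int _ hF n
    refine ⟨z, ?_⟩
    rw [← hz]
    refine Finset.sum_congr rfl fun k _ => ?_
    rw [ha, dv_nat, sv_nat, Pi.pow_apply, mul_pow]

end R420.DS
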