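import Mathlib

/-!
# Rainbow induced subgraphs and joins

Definitions and general lemmas for the rainbow induced-subgraph number `rho`.
-/

namespace Pool.Agent.R420.RainbowJoin

open Function

/-- The join of two graphs: disjoint copies of `G` and `H` together with all edges between them. -/
def join {V W : Type} (G : SimpleGraph V) (H : SimpleGraph W) : SimpleGraph (V ⊕ W) where
  Adj a b := match a, b with
    | Sum.inl u, Sum.inl v => G.Adj u v
    | Sum.inr u, Sum.inr v => H.Adj u v
    | Sum.inl _, Sum.inr _ => True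
    | Sum.inr _, Sum.inl _ => True
  symm := ⟨by
    intro a b h
    cases a <;> cases b
    · exact SimpleGraph.Adj.symm (G := G) h
    · trivial
    · trivial
    · exact SimpleGraph.Adj.symm (G := H) h⟩
  loopless := ⟨by
    intro a h
    cases a
    · exact G.loopless.irrefl _ h
    · exact H.loopless.irrefl _ h⟩

/-- `Arrows G H`: every proper vertex colouring of `G` (with any number of colours; the colours are
natural numbers) contains a rainbow induced copy of `H`, i.e. there is an induced embedding of `H`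
into `G` all of whose vertices receive distinct colours. -/
def Arrows {V W : Type} (G : SimpleGraph V) (H : SimpleGraph W) : Prop :=
  ∀ c : G.Coloring ℕ, ∃ f : H ↪g G, Injective (fun w => c (f w))

/-- `rho H`: the least number of vertices of a graph `G` with `Arrows G H`. -/
noncomputable def rho {W : Type} (H : SimpleGraph W) : ℕ :=
  sInf {n : ℕ | ∃ G : SimpleGraph (Fin n), Arrows G H}

theorem Arrows.mono {V V' W : Type} {G : SimpleGraph V} {G' : SimpleGraph V'} {H : SimpleGraph W}
    (φ : G ↪g G') (h : Arrows G H) : Arrows G' H := by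
  intro c
  obtain ⟨f, hf⟩ := h (c.comp φ.toHom)
  exact ⟨f.trans φ, hf⟩

theorem rho_le_of_arrows {V W : Type} [Fintype V] {G : SimpleGraph V} {H : SimpleGraph W}
    (h : Arrows G H) : rho H ≤ Fintype.card V := by
  apply Nat.sInf_le
  refine ⟨G.map (Fintype.equivFin V).toEmbedding, ?_⟩
  exact h.mono (SimpleGraph.Embedding.map (Fintype.equivFin V).toEmbedding G)

/-- The gadget principle: if `A` always has a rainbow `H₁` or a rainbow `H₂`, and `C` always has both,
then the join of `A` and `C` arrows the join of `H₁` and `H₂`. -/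
theorem join_arrows {V₁ V₂ W₁ W₂ : Type} (A : SimpleGraph V₁) (C : SimpleGraph V₂)
    (H₁ : SimpleGraph W₁) (H₂ : SimpleGraph W₂)
    (hA : ∀ c : A.Coloring ℕ, (∃ f : H₁ ↪g A, Injective (fun w => c (f w))) ∨
      (∃ f : H₂ ↪g A, Injective (fun w => c (f w))))
    (hC₁ : Arrows C H₁) (hC₂ : Arrows C H₂) : Arrows (join A C) (join H₁ H₂) := by
  intro c
  let iA : A →g join A C := ⟨Sum.inl, fun h => h⟩
  let iC : C →g join A C := ⟨Sum.inr, fun h => h⟩
  have hne : ∀ (a : V₁) (b : V₂), c (Sum.inl a) ≠ c (Sum.inr b) := by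
    intro a b
    apply c.valid
    trivial
  rcases hA (c.comp iA) with ⟨f, hf⟩ | ⟨f, hf⟩
  · obtain ⟨g, hg⟩ := hC₂ (c.comp iC)
    have hf' : ∀ x y, c (Sum.inl (f x)) = c (Sum.inl (f y)) → x = y := fun x y h => hf h
    have hg' : ∀ x y, c (Sum.inr (g x)) = c (Sum.inr (g y)) → x = y := fun x y h => hg h
    refine ⟨⟨⟨Sum.map f g, Sum.map_injective.2 ⟨f.injective, g.injective⟩⟩, ?_⟩, ?_⟩
    · intro a b
      cases a <;> cases b
      · exact f.map_rel_iff
      · exact Iff.rfl
      · exact Iff.rfl
      · exact g.map_rel_iff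
    · intro a b hab
      cases a with
      | inl x =>
        cases b with
        | inl y => rw [hf' x y hab]
        | inr y => exact absurd hab (hne _ _)
      | inr x =>
        cases b with
        | inl y => exact absurd hab.symm (hne _ _)
        | inr y => rw [hg' x y hab]
  · obtain ⟨g, hg⟩ := hC₁ (c.comp iC)
    have hf' : ∀ x y, c (Sum.inl (f x)) = c (Sum.inl (f y)) → x = y := fun x y h => hf h
    have hg' : ∀ x y, c (Sum.inr (g x)) = c (Sum.inr (g y)) → x = y := fun x y h => hg h
    refine ⟨⟨⟨Sum.elim (fun w => Sum.inr (g w)) (fun w => Sum.inl (f w)), ?_⟩, ?_⟩, ?_⟩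
    · intro a b hab
      cases a with
      | inl x =>
        cases b with
        | inl y =>
          have := g.injective (Sum.inr_injective hab)
          rw [this]
        | inr y => exact absurd hab (by simp)
      | inr x =>
        cases b with
        | inl y => exact absurd hab (by simp)
        | inr y =>
          have := f.injective (Sum.inl_injective hab)
          rw [this]
    · intro a b
      cases a <;> cases b
      · exact g.map_rel_iff
      · exact Iff.rfl
      · exact Iff.rfl
      · exact f.map_rel_iff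
    · intro a b hab
      cases a with
      | inl x =>
        cases b with
        | inl y => rw [hg' x y hab]
        | inr y => exact absurd hab.symm (hne _ _)
      | inr x =>
        cases b with
        | inl y => exact absurd hab (hne _ _)
        | inr y => rw [hf' x y hab]

/-- Reduction of the lower bound `rho H ≥ 9` (for `H` on six vertices) to graphs on `Fin 8` whose
first six vertices induce exactly `H`. -/
theorem lower {H : SimpleGraph (Fin 6)}
    (key : ∀ G : SimpleGraph (Fin 8),
      (∀ i j : Fin 6, G.Adj (Fin.castLE (by decide) i) (Fin.castLE (by decide) j) ↔ H.Adj i j) →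
      ¬ Arrows G H) (n : ℕ) (hn : n ≤ 8) (G : SimpleGraph (Fin n)) : ¬ Arrows G H := by
  intro h
  have h1 : Arrows (G.map (Fin.castLEEmb hn)) H :=
    h.mono (SimpleGraph.Embedding.map (Fin.castLEEmb hn) G)
  set G' := G.map (Fin.castLEEmb hn) with hG'
  obtain ⟨f, -⟩ := h1 (SimpleGraph.Coloring.mk (fun v : Fin 8 => v.val) (by
    intro v w hvw h
    exact hvw.ne (Fin.ext h)))
  -- a permutation carrying the copy to the first six vertices
  let g : Fin 6 → Fin 8 := Fin.castLE (by decide)
  have hg : Injective g := Fin.castLE_injective _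
  let e : {x // x ∈ Set.range f} ≃ {x // x ∈ Set.range g} :=
    (Equiv.ofInjective f f.injective).symm.trans (Equiv.ofInjective g hg)
  let σ : Equiv.Perm (Fin 8) := e.extendSubtype
  have hσ : ∀ i, σ (f i) = g i := by
    intro i
    have hi : f i ∈ Set.range f := ⟨i, rfl⟩
    have h2 : σ (f i) = e ⟨f i, hi⟩ := Equiv.extendSubtype_apply_of_mem e (f i) hi
    rw [h2]
    have h3 : (⟨f i, hi⟩ : {x // x ∈ Set.range f}) = Equiv.ofInjective f f.injective i := rfl
    rw [h3]
    simp [e]
  have hσ' : ∀ i, σ.symm (g i) = f i := fun i => by rw [← hσ i]; simp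
  apply key (G'.comap σ.symm)
  · intro i j
    show G'.Adj (σ.symm (g i)) (σ.symm (g j)) ↔ H.Adj i j
    rw [hσ', hσ']
    exact f.map_rel_iff
  · exact h1.mono (SimpleGraph.Iso.comap σ.symm G').symm.toEmbedding

/-- Three disjoint non-adjacent pairs give a colouring with five colours. -/
theorem no_three {H : SimpleGraph (Fin 6)} {G : SimpleGraph (Fin 8)} (h : Arrows G H)
    (p₁ q₁ p₂ q₂ p₃ q₃ : Fin 8) (hnd : [p₁, q₁, p₂, q₂, p₃, q₃].Nodup)
    (h₁ : ¬ G.Adj p₁ q₁) (h₂ : ¬ G.Adj p₂ q₂) (h₃ : ¬ G.Adj p₃ q₃) : False := by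
  classical
  let g : Fin 8 → Fin 8 := fun v => if v = q₁ then p₁ else if v = q₂ then p₂ else
    if v = q₃ then p₃ else v
  have hnd' := hnd
  simp only [List.nodup_cons, List.mem_cons, List.not_mem_nil, or_false, not_or,
    not_false_eq_true, List.nodup_nil, and_true] at hnd'
  obtain ⟨⟨a1, a2, a3, a4, a5⟩, ⟨b1, b2, b3, b4⟩, ⟨c1, c2, c3⟩, ⟨d1, d2⟩, e1⟩ := hnd'
  have h₁' : ¬ G.Adj q₁ p₁ := fun h => h₁ h.symm
  have h₂' : ¬ G.Adj q₂ p₂ := fun h => h₂ h.symm
  have h₃' : ¬ G.Adj q₃ p₃ := fun h => h₃ h.symm
  have hproper : ∀ {u v : Fin 8}, G.Adj u v → g u ≠ g v := by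
    intro u v huv heq
    have huv' := huv.ne
    simp only [g] at heq
    split_ifs at heq <;> simp_all
  obtain ⟨f, hf⟩ := h (SimpleGraph.Coloring.mk (fun v => (g v).val) (by
    intro u v huv heq
    exact hproper huv (Fin.ext heq)))
  have hf' : Injective (fun w => g (f w)) := by
    intro a b hab
    exact hf (congrArg Fin.val hab)
  have himg : ∀ w, g (f w) ∈ (Finset.univ \ {q₁, q₂, q₃} : Finset (Fin 8)) := by
    intro w
    simp only [Finset.mem_sdiff, Finset.mem_univ, true_and, Finset.mem_insert,
      Finset.mem_singleton, not_or]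
    simp only [g]
    split_ifs <;> refine ⟨?_, ?_, ?_⟩ <;> simp_all [Ne.symm, eq_comm]
  have hcard : (Finset.univ \ {q₁, q₂, q₃} : Finset (Fin 8)).card = 5 := by
    rw [Finset.card_sdiff_of_subset (Finset.subset_univ _)]
    rw [Finset.card_insert_of_notMem, Finset.card_insert_of_notMem, Finset.card_singleton]
    · simp
    · simpa using d2
    · simp only [Finset.mem_insert, Finset.mem_singleton, not_or]
      exact ⟨b2, b4⟩
  have hle := Finset.card_le_card_of_injOn (s := (Finset.univ : Finset (Fin 6)))
    (fun w => g (f w)) (fun w _ => himg w) (hf'.injOn)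
  rw [hcard] at hle
  simp at hle

/-- Convenient way to exhibit a rainbow induced copy. -/
theorem mkEmb {n : ℕ} {G : SimpleGraph (Fin n)} {H : SimpleGraph (Fin 6)} (c : G.Coloring ℕ)
    (f : Fin 6 → Fin n) (hf : Injective f) (hadj : ∀ i j, G.Adj (f i) (f j) ↔ H.Adj i j)
    (hcol : ∀ i j, i < j → ¬ H.Adj i j → c (f i) ≠ c (f j)) :
    ∃ f : H ↪g G, Injective (fun w => c (f w)) := by
  refine ⟨⟨⟨f, hf⟩, fun {a b} => hadj a b⟩, ?_⟩
  have hlt : ∀ i j, i < j → c (f i) ≠ c (f j) := by
    intro i j hij
    by_cases h : H.Adj i j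
    · exact c.valid ((hadj i j).2 h)
    · exact hcol i j hij h
  intro i j hij
  rcases lt_trichotomy i j with h | h | h
  · exact absurd hij (hlt i j h)
  · exact h
  · exact absurd hij.symm (hlt j i h)

end Pool.Agent.R420.RainbowJoin
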