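import Pool.Agent.R420.RainbowJoinBase

/-!
# The two six-vertex graphs: lower bounds
-/

namespace Pool.Agent.R420.RainbowJoin

open Function

/-- The graph on `Fin n` whose edges are the pairs in the list. -/
def ofList {n : ℕ} (l : List (Fin n × Fin n)) : SimpleGraph (Fin n) where
  Adj i j := i ≠ j ∧ ((i, j) ∈ l ∨ (j, i) ∈ l)
  symm := ⟨fun _ _ h => ⟨h.1.symm, h.2.symm⟩⟩
  loopless := ⟨fun _ h => h.1 rfl⟩

instance {n : ℕ} (l : List (Fin n × Fin n)) : DecidableRel (ofList l).Adj :=
  fun i j => inferInstanceAs (Decidable (i ≠ j ∧ ((i, j) ∈ l ∨ (j, i) ∈ l)))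

/-- A complete graph on `1,2,3,4`, a vertex `0` adjacent to `1,2,3`, and a pendant vertex `5` at `0`. -/
def HA : SimpleGraph (Fin 6) :=
  ofList [(1, 2), (1, 3), (1, 4), (2, 3), (2, 4), (3, 4), (0, 1), (0, 2), (0, 3), (0, 5)]

/-- A complete graph on `1,2,3,4`, a vertex `0` adjacent to `3,4`, and a pendant vertex `5` at `0`. -/
def HB : SimpleGraph (Fin 6) :=
  ofList [(1, 2), (1, 3), (1, 4), (2, 3), (2, 4), (3, 4), (0, 3), (0, 4), (0, 5)]

instance : DecidableRel HA.Adj := fun i j => by unfold HA; infer_instance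
instance : DecidableRel HB.Adj := fun i j => by unfold HB; infer_instance

/-- Adjacency read off a bit mask. -/
def tb (M i j : ℕ) : Bool := Nat.beq (Nat.land (Nat.shiftRight M (8 * i + j)) 1) 1

/-- Colours read off a base-8 code. -/
def col (c v : ℕ) : ℕ := Nat.land (Nat.shiftRight c (3 * v)) 7

def all8 (p : ℕ → Bool) : Bool :=
  p 0 && (p 1 && (p 2 && (p 3 && (p 4 && (p 5 && (p 6 && p 7))))))

theorem all8_spec {p : ℕ → Bool} (h : all8 p = true) (v : ℕ) (hv : v < 8) : p v = true := by
  simp only [all8, Bool.and_eq_true] at h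
  obtain ⟨h0, h1, h2, h3, h4, h5, h6, h7⟩ := h
  interval_cases v <;> assumption

def properB (M c : ℕ) : Bool := all8 fun i => all8 fun j => !(tb M i j) || !(Nat.beq (col c i) (col c j))

def okNext (M c Hm i v : ℕ) : List (ℕ × ℕ) → Bool
  | [] => true
  | p :: l => (tb M v p.2 == tb Hm i p.1) && (!(Nat.beq (col c v) (col c p.2)) && okNext M c Hm i v l)

def search (M c Hm : ℕ) : List ℕ → List (ℕ × ℕ) → Bool
  | [], _ => false
  | i :: is, l => all8 fun v => !(okNext M c Hm i v l) || search M c Hm is ((i, v) :: l)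

theorem okNext_sound (M c Hm : ℕ) (F : ℕ → ℕ)
    (hadj : ∀ i < 6, ∀ j < 6, i ≠ j → tb M (F i) (F j) = tb Hm i j)
    (hcol : ∀ i < 6, ∀ j < 6, i ≠ j → col c (F i) ≠ col c (F j)) (i : ℕ) (hi : i < 6) :
    ∀ l : List (ℕ × ℕ), (∀ p ∈ l, p.1 < 6 ∧ p.2 = F p.1 ∧ i ≠ p.1) →
      okNext M c Hm i (F i) l = true
  | [], _ => rfl
  | p :: l, hl => by
    obtain ⟨h1, h2, h3⟩ := hl p (by simp)
    have ih := okNext_sound M c Hm F hadj hcol i hi l (fun q hq => hl q (by simp [hq]))
    simp only [okNext, ih, Bool.and_true, Bool.and_eq_true, h2, hadj i hi p.1 h1 h3]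
    refine ⟨by simp, ?_⟩
    have := hcol i hi p.1 h1 h3
    cases hb : Nat.beq (col c (F i)) (col c (F p.1)) with
    | false => rfl
    | true => exact absurd (Nat.eq_of_beq_eq_true hb) this

theorem search_sound (M c Hm : ℕ) (F : ℕ → ℕ) (hF : ∀ i < 6, F i < 8)
    (hadj : ∀ i < 6, ∀ j < 6, i ≠ j → tb M (F i) (F j) = tb Hm i j)
    (hcol : ∀ i < 6, ∀ j < 6, i ≠ j → col c (F i) ≠ col c (F j)) :
    ∀ (is : List ℕ) (l : List (ℕ × ℕ)), (∀ i ∈ is, i < 6) →
      (∀ p ∈ l, p.1 < 6 ∧ p.2 = F p.1) → is.Nodup → (∀ i ∈ is, ∀ p ∈ l, i ≠ p.1) →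
      search M c Hm is l = false
  | [], _, _, _, _, _ => rfl
  | i :: is, l, his, hl, hnd, hdis => by
    have hi : i < 6 := his i (by simp)
    rw [List.nodup_cons] at hnd
    have ih := search_sound M c Hm F hF hadj hcol is ((i, F i) :: l)
      (fun j hj => his j (by simp [hj]))
      (fun p hp => by
        rcases List.mem_cons.1 hp with rfl | hp
        · exact ⟨hi, rfl⟩
        · exact hl p hp) hnd.2
      (fun j hj p hp => by
        rcases List.mem_cons.1 hp with rfl | hp
        · rintro rfl
          exact hnd.1 hj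
        · exact hdis j (by simp [hj]) p hp)
    have hok := okNext_sound M c Hm F hadj hcol i hi l
      (fun p hp => ⟨(hl p hp).1, (hl p hp).2, hdis i (by simp) p hp⟩)
    by_contra hne
    rw [Bool.not_eq_false] at hne
    unfold search at hne
    have h2 := all8_spec hne (F i) (hF i hi)
    simp [hok, ih] at h2

/-- A certified colouring refutes `Arrows`. -/
theorem not_arrows_of_check {H : SimpleGraph (Fin 6)} {G : SimpleGraph (Fin 8)} (M c Hm : ℕ)
    (hG : ∀ i j : Fin 8, tb M i j = true ↔ G.Adj i j)
    (hH : ∀ i j : Fin 6, tb Hm i j = true ↔ H.Adj i j) (is : List ℕ) (his : ∀ i ∈ is, i < 6)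
    (hnd : is.Nodup)
    (hp : properB M c = true) (hs : search M c Hm is [] = true) : ¬ Arrows G H := by
  intro h
  obtain ⟨f, hf⟩ := h (SimpleGraph.Coloring.mk (fun v => col c v) (by
    intro u v huv heq
    have h1 := all8_spec (all8_spec hp u u.isLt) v v.isLt
    have h2 : tb M u v = true := (hG u v).2 huv
    have h3 : Nat.beq (col c u) (col c v) = true := by rw [heq]; exact Nat.beq_refl _
    simp [h2, h3] at h1))
  have hf' : Injective (fun w => col c (f w)) := hf
  let F : ℕ → ℕ := fun i => if hi : i < 6 then (f ⟨i, hi⟩).val else 0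
  have hFv : ∀ (i : ℕ) (hi : i < 6), F i = (f ⟨i, hi⟩).val := fun i hi => by simp [F, hi]
  have := search_sound M c Hm F (fun i hi => by rw [hFv i hi]; exact (f ⟨i, hi⟩).isLt)
    (fun i hi j hj _ => by
      rw [hFv i hi, hFv j hj]
      have h1 : G.Adj (f ⟨i, hi⟩) (f ⟨j, hj⟩) ↔ H.Adj ⟨i, hi⟩ ⟨j, hj⟩ := f.map_rel_iff
      rw [Bool.eq_iff_iff, hG, h1, ← hH])
    (fun i hi j hj hij h => by
      rw [hFv i hi, hFv j hj] at h
      have := hf' h
      exact hij (by simpa using congrArg Fin.val this)) is [] his (by simp) hnd (by simp)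
  rw [this] at hs
  exact absurd hs (by decide)

def HAm : ℕ := 1160028822830
def HBm : ℕ := 1164323724344

theorem HAm_spec : ∀ i j : Fin 6, tb HAm i j = true ↔ HA.Adj i j := by decide +kernel
theorem HBm_spec : ∀ i j : Fin 6, tb HBm i j = true ↔ HB.Adj i j := by decide +kernel

def MA (b65 b64 b60 b75 b74 b70 : Bool) : ℕ :=
  5660462944913972526 + ((bif b65 then 9077567998918656 else 0) +
    ((bif b64 then 4503874505277440 else 0) + ((bif b60 then 281474976710720 else 0) +
    ((bif b75 then 2305983746702049280 else 0) + ((bif b74 then 1152922054362660864 else 0) +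
    (bif b70 then 72057594037928064 else 0))))))

def matA (b65 b64 b60 b75 b74 b70 : Bool) : Fin 8 → Fin 8 → Bool :=
  ![![false, true, true, true, false, true, b60, b70],
    ![true, false, true, true, true, false, true, true],
    ![true, true, false, true, true, false, true, true],
    ![true, true, true, false, true, false, true, true],
    ![false, true, true, true, false, false, b64, b74],
    ![true, false, false, false, false, false, b65, b75],
    ![b60, true, true, true, b64, b65, false, true],
    ![b70, true, true, true, b74, b75, true, false]]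

theorem MA_spec : ∀ b65 b64 b60 b75 b74 b70 : Bool, ∀ i j : Fin 8,
    tb (MA b65 b64 b60 b75 b74 b70) i j = matA b65 b64 b60 b75 b74 b70 i j := by
  decide +kernel

theorem checkA : ∀ b65 b64 b60 b75 b74 b70 : Bool,
    ([16402056, 14829192, 1721992, 16287368].any fun c =>
      properB (MA b65 b64 b60 b75 b74 b70) c &&
        search (MA b65 b64 b60 b75 b74 b70) c HAm [5, 4, 0, 1, 2, 3] []) = true := by
  decide +kernel

def MB (b65 b60 b75 b70 : Bool) : ℕ :=
  6817888878076812344 + ((bif b65 then 9077567998918656 else 0) +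
    ((bif b60 then 281474976710720 else 0) +
    ((bif b75 then 2305983746702049280 else 0) +
    (bif b70 then 72057594037928064 else 0))))

def matB (b65 b60 b75 b70 : Bool) : Fin 8 → Fin 8 → Bool :=
  ![![false, false, false, true, true, true, b60, b70],
    ![false, false, true, true, true, false, true, true],
    ![false, true, false, true, true, false, true, true],
    ![true, true, true, false, true, false, true, true],
    ![true, true, true, true, false, false, true, true],
    ![true, false, false, false, false, false, b65, b75],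
    ![b60, true, true, true, true, b65, false, true],
    ![b70, true, true, true, true, b75, true, false]]

theorem MB_spec : ∀ b65 b60 b75 b70 : Bool, ∀ i j : Fin 8,
    tb (MB b65 b60 b75 b70) i j = matB b65 b60 b75 b70 i j := by
  decide +kernel

theorem checkB : ∀ b65 b60 b75 b70 : Bool,
    ([16303624, 16369280].any fun c =>
      properB (MB b65 b60 b75 b70) c &&
        search (MB b65 b60 b75 b70) c HBm [5, 0, 1, 2, 3, 4] []) = true := by
  decide +kernel

end Pool.Agent.R420.RainbowJoin
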