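import Pool.Agent.R420.RainbowJoinKey

/-!
# The two six-vertex graphs: key lemmas and gadgets
-/

namespace Pool.Agent.R420.RainbowJoin

open Function

theorem matA_ok (G : SimpleGraph (Fin 8))
    (hG : ∀ i j : Fin 6, G.Adj (Fin.castLE (by decide) i) (Fin.castLE (by decide) j) ↔ HA.Adj i j)
    (h67 : G.Adj 6 7)
    (h61 : G.Adj 6 1)
    (h62 : G.Adj 6 2)
    (h63 : G.Adj 6 3)
    (h71 : G.Adj 7 1)
    (h72 : G.Adj 7 2)
    (h73 : G.Adj 7 3)
    (b65 b64 b60 b75 b74 b70 : Bool) (e65 : b65 = true ↔ G.Adj 6 5) (e64 : b64 = true ↔ G.Adj 6 4) (e60 : b60 = true ↔ G.Adj 6 0) (e75 : b75 = true ↔ G.Adj 7 5) (e74 : b74 = true ↔ G.Adj 7 4) (e70 : b70 = true ↔ G.Adj 7 0) :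
    ∀ i j : Fin 8, matA b65 b64 b60 b75 b74 b70 i j = true ↔ G.Adj i j := by
  have hT : ∀ {i j : Fin 6}, HA.Adj i j →
      G.Adj (Fin.castLE (by decide) i) (Fin.castLE (by decide) j) := fun h => (hG _ _).2 h
  intro i j
  fin_cases i <;> fin_cases j
  · exact ⟨fun h => (Bool.false_ne_true h).elim, fun h => absurd rfl h.ne⟩
  · exact ⟨fun _ => (hG 0 1).2 (by decide), fun _ => rfl⟩
  · exact ⟨fun _ => (hG 0 2).2 (by decide), fun _ => rfl⟩
  · exact ⟨fun _ => (hG 0 3).2 (by decide), fun _ => rfl⟩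
  · exact ⟨fun h => (Bool.false_ne_true h).elim, fun h => absurd ((hG 0 4).1 h) (by decide)⟩
  · exact ⟨fun _ => (hG 0 5).2 (by decide), fun _ => rfl⟩
  · exact e60.trans (G.adj_comm 6 0)
  · exact e70.trans (G.adj_comm 7 0)
  · exact ⟨fun _ => (hG 1 0).2 (by decide), fun _ => rfl⟩
  · exact ⟨fun h => (Bool.false_ne_true h).elim, fun h => absurd rfl h.ne⟩
  · exact ⟨fun _ => (hG 1 2).2 (by decide), fun _ => rfl⟩
  · exact ⟨fun _ => (hG 1 3).2 (by decide), fun _ => rfl⟩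
  · exact ⟨fun _ => (hG 1 4).2 (by decide), fun _ => rfl⟩
  · exact ⟨fun h => (Bool.false_ne_true h).elim, fun h => absurd ((hG 1 5).1 h) (by decide)⟩
  · exact ⟨fun _ => h61.symm, fun _ => rfl⟩
  · exact ⟨fun _ => h71.symm, fun _ => rfl⟩
  · exact ⟨fun _ => (hG 2 0).2 (by decide), fun _ => rfl⟩
  · exact ⟨fun _ => (hG 2 1).2 (by decide), fun _ => rfl⟩
  · exact ⟨fun h => (Bool.false_ne_true h).elim, fun h => absurd rfl h.ne⟩
  · exact ⟨fun _ => (hG 2 3).2 (by decide), fun _ => rfl⟩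
  · exact ⟨fun _ => (hG 2 4).2 (by decide), fun _ => rfl⟩
  · exact ⟨fun h => (Bool.false_ne_true h).elim, fun h => absurd ((hG 2 5).1 h) (by decide)⟩
  · exact ⟨fun _ => h62.symm, fun _ => rfl⟩
  · exact ⟨fun _ => h72.symm, fun _ => rfl⟩
  · exact ⟨fun _ => (hG 3 0).2 (by decide), fun _ => rfl⟩
  · exact ⟨fun _ => (hG 3 1).2 (by decide), fun _ => rfl⟩
  · exact ⟨fun _ => (hG 3 2).2 (by decide), fun _ => rfl⟩
  · exact ⟨fun h => (Bool.false_ne_true h).elim, fun h => absurd rfl h.ne⟩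
  · exact ⟨fun _ => (hG 3 4).2 (by decide), fun _ => rfl⟩
  · exact ⟨fun h => (Bool.false_ne_true h).elim, fun h => absurd ((hG 3 5).1 h) (by decide)⟩
  · exact ⟨fun _ => h63.symm, fun _ => rfl⟩
  · exact ⟨fun _ => h73.symm, fun _ => rfl⟩
  · exact ⟨fun h => (Bool.false_ne_true h).elim, fun h => absurd ((hG 4 0).1 h) (by decide)⟩
  · exact ⟨fun _ => (hG 4 1).2 (by decide), fun _ => rfl⟩
  · exact ⟨fun _ => (hG 4 2).2 (by decide), fun _ => rfl⟩
  · exact ⟨fun _ => (hG 4 3).2 (by decide), fun _ => rfl⟩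
  · exact ⟨fun h => (Bool.false_ne_true h).elim, fun h => absurd rfl h.ne⟩
  · exact ⟨fun h => (Bool.false_ne_true h).elim, fun h => absurd ((hG 4 5).1 h) (by decide)⟩
  · exact e64.trans (G.adj_comm 6 4)
  · exact e74.trans (G.adj_comm 7 4)
  · exact ⟨fun _ => (hG 5 0).2 (by decide), fun _ => rfl⟩
  · exact ⟨fun h => (Bool.false_ne_true h).elim, fun h => absurd ((hG 5 1).1 h) (by decide)⟩
  · exact ⟨fun h => (Bool.false_ne_true h).elim, fun h => absurd ((hG 5 2).1 h) (by decide)⟩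
  · exact ⟨fun h => (Bool.false_ne_true h).elim, fun h => absurd ((hG 5 3).1 h) (by decide)⟩
  · exact ⟨fun h => (Bool.false_ne_true h).elim, fun h => absurd ((hG 5 4).1 h) (by decide)⟩
  · exact ⟨fun h => (Bool.false_ne_true h).elim, fun h => absurd rfl h.ne⟩
  · exact e65.trans (G.adj_comm 6 5)
  · exact e75.trans (G.adj_comm 7 5)
  · exact e60
  · exact ⟨fun _ => h61, fun _ => rfl⟩
  · exact ⟨fun _ => h62, fun _ => rfl⟩
  · exact ⟨fun _ => h63, fun _ => rfl⟩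
  · exact e64
  · exact e65
  · exact ⟨fun h => (Bool.false_ne_true h).elim, fun h => absurd rfl h.ne⟩
  · exact ⟨fun _ => h67, fun _ => rfl⟩
  · exact e70
  · exact ⟨fun _ => h71, fun _ => rfl⟩
  · exact ⟨fun _ => h72, fun _ => rfl⟩
  · exact ⟨fun _ => h73, fun _ => rfl⟩
  · exact e74
  · exact e75
  · exact ⟨fun _ => h67.symm, fun _ => rfl⟩
  · exact ⟨fun h => (Bool.false_ne_true h).elim, fun h => absurd rfl h.ne⟩

theorem keyA (G : SimpleGraph (Fin 8))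
    (hG : ∀ i j : Fin 6, G.Adj (Fin.castLE (by decide) i) (Fin.castLE (by decide) j) ↔ HA.Adj i j) :
    ¬ Arrows G HA := by
  classical
  intro h
  have k40 : ¬ G.Adj 4 0 := fun h => absurd ((hG 4 0).1 h) (by decide)
  have k51 : ¬ G.Adj 5 1 := fun h => absurd ((hG 5 1).1 h) (by decide)
  have k52 : ¬ G.Adj 5 2 := fun h => absurd ((hG 5 2).1 h) (by decide)
  have h67 : G.Adj 6 7 := by_contra fun hn =>
    no_three h 6 7 5 1 4 0 (by decide) hn k51 k40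
  have h61 : G.Adj 6 1 := by_contra fun hn =>
    no_three h 6 1 5 2 4 0 (by decide) hn k52 k40
  have h62 : G.Adj 6 2 := by_contra fun hn =>
    no_three h 6 2 5 1 4 0 (by decide) hn k51 k40
  have h63 : G.Adj 6 3 := by_contra fun hn =>
    no_three h 6 3 5 1 4 0 (by decide) hn k51 k40
  have h71 : G.Adj 7 1 := by_contra fun hn =>
    no_three h 7 1 5 2 4 0 (by decide) hn k52 k40
  have h72 : G.Adj 7 2 := by_contra fun hn =>
    no_three h 7 2 5 1 4 0 (by decide) hn k51 k40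
  have h73 : G.Adj 7 3 := by_contra fun hn =>
    no_three h 7 3 5 1 4 0 (by decide) hn k51 k40
  have hmat := matA_ok G hG h67 h61 h62 h63 h71 h72 h73
    (decide (G.Adj 6 5)) (decide (G.Adj 6 4)) (decide (G.Adj 6 0)) (decide (G.Adj 7 5)) (decide (G.Adj 7 4)) (decide (G.Adj 7 0))
    decide_eq_true_iff decide_eq_true_iff decide_eq_true_iff decide_eq_true_iff decide_eq_true_iff decide_eq_true_iff
  have hM : ∀ i j : Fin 8, tb (MA (decide (G.Adj 6 5)) (decide (G.Adj 6 4)) (decide (G.Adj 6 0)) (decide (G.Adj 7 5)) (decide (G.Adj 7 4)) (decide (G.Adj 7 0))) i j = true ↔ G.Adj i j := fun i j => by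
    rw [MA_spec]; exact hmat i j
  obtain ⟨c, -, hc⟩ := List.any_eq_true.1 (checkA (decide (G.Adj 6 5)) (decide (G.Adj 6 4)) (decide (G.Adj 6 0)) (decide (G.Adj 7 5)) (decide (G.Adj 7 4)) (decide (G.Adj 7 0)))
  rw [Bool.and_eq_true] at hc
  exact not_arrows_of_check _ c HAm hM HAm_spec [5, 4, 0, 1, 2, 3] (by decide) (by decide) hc.1 hc.2 h

theorem matB_ok (G : SimpleGraph (Fin 8))
    (hG : ∀ i j : Fin 6, G.Adj (Fin.castLE (by decide) i) (Fin.castLE (by decide) j) ↔ HB.Adj i j)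
    (h67 : G.Adj 6 7)
    (h61 : G.Adj 6 1)
    (h62 : G.Adj 6 2)
    (h63 : G.Adj 6 3)
    (h64 : G.Adj 6 4)
    (h71 : G.Adj 7 1)
    (h72 : G.Adj 7 2)
    (h73 : G.Adj 7 3)
    (h74 : G.Adj 7 4)
    (b65 b60 b75 b70 : Bool) (e65 : b65 = true ↔ G.Adj 6 5) (e60 : b60 = true ↔ G.Adj 6 0) (e75 : b75 = true ↔ G.Adj 7 5) (e70 : b70 = true ↔ G.Adj 7 0) :
    ∀ i j : Fin 8, matB b65 b60 b75 b70 i j = true ↔ G.Adj i j := by
  have hT : ∀ {i j : Fin 6}, HB.Adj i j →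
      G.Adj (Fin.castLE (by decide) i) (Fin.castLE (by decide) j) := fun h => (hG _ _).2 h
  intro i j
  fin_cases i <;> fin_cases j
  · exact ⟨fun h => (Bool.false_ne_true h).elim, fun h => absurd rfl h.ne⟩
  · exact ⟨fun h => (Bool.false_ne_true h).elim, fun h => absurd ((hG 0 1).1 h) (by decide)⟩
  · exact ⟨fun h => (Bool.false_ne_true h).elim, fun h => absurd ((hG 0 2).1 h) (by decide)⟩
  · exact ⟨fun _ => (hG 0 3).2 (by decide), fun _ => rfl⟩
  · exact ⟨fun _ => (hG 0 4).2 (by decide), fun _ => rfl⟩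
  · exact ⟨fun _ => (hG 0 5).2 (by decide), fun _ => rfl⟩
  · exact e60.trans (G.adj_comm 6 0)
  · exact e70.trans (G.adj_comm 7 0)
  · exact ⟨fun h => (Bool.false_ne_true h).elim, fun h => absurd ((hG 1 0).1 h) (by decide)⟩
  · exact ⟨fun h => (Bool.false_ne_true h).elim, fun h => absurd rfl h.ne⟩
  · exact ⟨fun _ => (hG 1 2).2 (by decide), fun _ => rfl⟩
  · exact ⟨fun _ => (hG 1 3).2 (by decide), fun _ => rfl⟩
  · exact ⟨fun _ => (hG 1 4).2 (by decide), fun _ => rfl⟩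
  · exact ⟨fun h => (Bool.false_ne_true h).elim, fun h => absurd ((hG 1 5).1 h) (by decide)⟩
  · exact ⟨fun _ => h61.symm, fun _ => rfl⟩
  · exact ⟨fun _ => h71.symm, fun _ => rfl⟩
  · exact ⟨fun h => (Bool.false_ne_true h).elim, fun h => absurd ((hG 2 0).1 h) (by decide)⟩
  · exact ⟨fun _ => (hG 2 1).2 (by decide), fun _ => rfl⟩
  · exact ⟨fun h => (Bool.false_ne_true h).elim, fun h => absurd rfl h.ne⟩
  · exact ⟨fun _ => (hG 2 3).2 (by decide), fun _ => rfl⟩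
  · exact ⟨fun _ => (hG 2 4).2 (by decide), fun _ => rfl⟩
  · exact ⟨fun h => (Bool.false_ne_true h).elim, fun h => absurd ((hG 2 5).1 h) (by decide)⟩
  · exact ⟨fun _ => h62.symm, fun _ => rfl⟩
  · exact ⟨fun _ => h72.symm, fun _ => rfl⟩
  · exact ⟨fun _ => (hG 3 0).2 (by decide), fun _ => rfl⟩
  · exact ⟨fun _ => (hG 3 1).2 (by decide), fun _ => rfl⟩
  · exact ⟨fun _ => (hG 3 2).2 (by decide), fun _ => rfl⟩
  · exact ⟨fun h => (Bool.false_ne_true h).elim, fun h => absurd rfl h.ne⟩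
  · exact ⟨fun _ => (hG 3 4).2 (by decide), fun _ => rfl⟩
  · exact ⟨fun h => (Bool.false_ne_true h).elim, fun h => absurd ((hG 3 5).1 h) (by decide)⟩
  · exact ⟨fun _ => h63.symm, fun _ => rfl⟩
  · exact ⟨fun _ => h73.symm, fun _ => rfl⟩
  · exact ⟨fun _ => (hG 4 0).2 (by decide), fun _ => rfl⟩
  · exact ⟨fun _ => (hG 4 1).2 (by decide), fun _ => rfl⟩
  · exact ⟨fun _ => (hG 4 2).2 (by decide), fun _ => rfl⟩
  · exact ⟨fun _ => (hG 4 3).2 (by decide), fun _ => rfl⟩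
  · exact ⟨fun h => (Bool.false_ne_true h).elim, fun h => absurd rfl h.ne⟩
  · exact ⟨fun h => (Bool.false_ne_true h).elim, fun h => absurd ((hG 4 5).1 h) (by decide)⟩
  · exact ⟨fun _ => h64.symm, fun _ => rfl⟩
  · exact ⟨fun _ => h74.symm, fun _ => rfl⟩
  · exact ⟨fun _ => (hG 5 0).2 (by decide), fun _ => rfl⟩
  · exact ⟨fun h => (Bool.false_ne_true h).elim, fun h => absurd ((hG 5 1).1 h) (by decide)⟩
  · exact ⟨fun h => (Bool.false_ne_true h).elim, fun h => absurd ((hG 5 2).1 h) (by decide)⟩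
  · exact ⟨fun h => (Bool.false_ne_true h).elim, fun h => absurd ((hG 5 3).1 h) (by decide)⟩
  · exact ⟨fun h => (Bool.false_ne_true h).elim, fun h => absurd ((hG 5 4).1 h) (by decide)⟩
  · exact ⟨fun h => (Bool.false_ne_true h).elim, fun h => absurd rfl h.ne⟩
  · exact e65.trans (G.adj_comm 6 5)
  · exact e75.trans (G.adj_comm 7 5)
  · exact e60
  · exact ⟨fun _ => h61, fun _ => rfl⟩
  · exact ⟨fun _ => h62, fun _ => rfl⟩
  · exact ⟨fun _ => h63, fun _ => rfl⟩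
  · exact ⟨fun _ => h64, fun _ => rfl⟩
  · exact e65
  · exact ⟨fun h => (Bool.false_ne_true h).elim, fun h => absurd rfl h.ne⟩
  · exact ⟨fun _ => h67, fun _ => rfl⟩
  · exact e70
  · exact ⟨fun _ => h71, fun _ => rfl⟩
  · exact ⟨fun _ => h72, fun _ => rfl⟩
  · exact ⟨fun _ => h73, fun _ => rfl⟩
  · exact ⟨fun _ => h74, fun _ => rfl⟩
  · exact e75
  · exact ⟨fun _ => h67.symm, fun _ => rfl⟩
  · exact ⟨fun h => (Bool.false_ne_true h).elim, fun h => absurd rfl h.ne⟩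

theorem keyB (G : SimpleGraph (Fin 8))
    (hG : ∀ i j : Fin 6, G.Adj (Fin.castLE (by decide) i) (Fin.castLE (by decide) j) ↔ HB.Adj i j) :
    ¬ Arrows G HB := by
  classical
  intro h
  have k01 : ¬ G.Adj 0 1 := fun h => absurd ((hG 0 1).1 h) (by decide)
  have k02 : ¬ G.Adj 0 2 := fun h => absurd ((hG 0 2).1 h) (by decide)
  have k53 : ¬ G.Adj 5 3 := fun h => absurd ((hG 5 3).1 h) (by decide)
  have k54 : ¬ G.Adj 5 4 := fun h => absurd ((hG 5 4).1 h) (by decide)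
  have h67 : G.Adj 6 7 := by_contra fun hn =>
    no_three h 6 7 5 3 0 1 (by decide) hn k53 k01
  have h63 : G.Adj 6 3 := by_contra fun hn =>
    no_three h 6 3 5 4 0 1 (by decide) hn k54 k01
  have h64 : G.Adj 6 4 := by_contra fun hn =>
    no_three h 6 4 5 3 0 1 (by decide) hn k53 k01
  have h61 : G.Adj 6 1 := by_contra fun hn =>
    no_three h 6 1 5 3 0 2 (by decide) hn k53 k02
  have h62 : G.Adj 6 2 := by_contra fun hn =>
    no_three h 6 2 5 3 0 1 (by decide) hn k53 k01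
  have h73 : G.Adj 7 3 := by_contra fun hn =>
    no_three h 7 3 5 4 0 1 (by decide) hn k54 k01
  have h74 : G.Adj 7 4 := by_contra fun hn =>
    no_three h 7 4 5 3 0 1 (by decide) hn k53 k01
  have h71 : G.Adj 7 1 := by_contra fun hn =>
    no_three h 7 1 5 3 0 2 (by decide) hn k53 k02
  have h72 : G.Adj 7 2 := by_contra fun hn =>
    no_three h 7 2 5 3 0 1 (by decide) hn k53 k01
  have hmat := matB_ok G hG h67 h61 h62 h63 h64 h71 h72 h73 h74
    (decide (G.Adj 6 5)) (decide (G.Adj 6 0)) (decide (G.Adj 7 5)) (decide (G.Adj 7 0))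
    decide_eq_true_iff decide_eq_true_iff decide_eq_true_iff decide_eq_true_iff
  have hM : ∀ i j : Fin 8, tb (MB (decide (G.Adj 6 5)) (decide (G.Adj 6 0)) (decide (G.Adj 7 5)) (decide (G.Adj 7 0))) i j = true ↔ G.Adj i j := fun i j => by
    rw [MB_spec]; exact hmat i j
  obtain ⟨c, -, hc⟩ := List.any_eq_true.1 (checkB (decide (G.Adj 6 5)) (decide (G.Adj 6 0)) (decide (G.Adj 7 5)) (decide (G.Adj 7 0)))
  rw [Bool.and_eq_true] at hc
  exact not_arrows_of_check _ c HBm hM HBm_spec [5, 0, 1, 2, 3, 4] (by decide) (by decide) hc.1 hc.2 h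


/-- First gadget (8 vertices): a complete graph on `1,…,6`, a vertex `7` adjacent to `4,5,6`, and a
pendant vertex `0` at `7`. -/
def GA : SimpleGraph (Fin 8) :=
  ofList [(1, 2), (1, 3), (2, 3), (1, 4), (2, 4), (3, 4), (1, 5), (2, 5), (3, 5), (4, 5), (1, 6),
    (2, 6), (3, 6), (4, 6), (5, 6), (4, 7), (5, 7), (6, 7), (0, 7)]

/-- Second gadget (9 vertices): a complete graph on `3,…,8`, a vertex `2` adjacent to `3,4,5`, a
vertex `1` adjacent to `6,7,8`, and a vertex `0` adjacent to `1` and `2`. -/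
def GC : SimpleGraph (Fin 9) :=
  ofList [(3, 4), (3, 5), (4, 5), (3, 6), (4, 6), (5, 6), (3, 7), (4, 7), (5, 7), (6, 7), (3, 8),
    (4, 8), (5, 8), (6, 8), (7, 8), (2, 3), (2, 4), (2, 5), (1, 6), (1, 7), (1, 8), (0, 1), (0, 2)]

instance : DecidableRel GA.Adj := fun i j => by unfold GA; infer_instance
instance : DecidableRel GC.Adj := fun i j => by unfold GC; infer_instance

theorem embA {n : ℕ} {G : SimpleGraph (Fin n)} (c : G.Coloring ℕ)
    (f : Fin 6 → Fin n) (hf : Injective f) (hadj : ∀ i j, G.Adj (f i) (f j) ↔ HA.Adj i j)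
    (h1 : c (f 0) ≠ c (f 4)) (h2 : c (f 1) ≠ c (f 5)) (h3 : c (f 2) ≠ c (f 5))
    (h4 : c (f 3) ≠ c (f 5)) (h5 : c (f 4) ≠ c (f 5)) :
    ∃ f : HA ↪g G, Injective (fun w => c (f w)) := by
  refine mkEmb c f hf hadj ?_
  intro i j hij hn
  have key : ∀ i j : Fin 6, i < j → ¬ HA.Adj i j → (i = 0 ∧ j = 4) ∨ (i = 1 ∧ j = 5) ∨
      (i = 2 ∧ j = 5) ∨ (i = 3 ∧ j = 5) ∨ (i = 4 ∧ j = 5) := by decide
  rcases key i j hij hn with ⟨rfl, rfl⟩ | ⟨rfl, rfl⟩ | ⟨rfl, rfl⟩ | ⟨rfl, rfl⟩ | ⟨rfl, rfl⟩ <;>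
    assumption

theorem embB {n : ℕ} {G : SimpleGraph (Fin n)} (c : G.Coloring ℕ)
    (f : Fin 6 → Fin n) (hf : Injective f) (hadj : ∀ i j, G.Adj (f i) (f j) ↔ HB.Adj i j)
    (h0 : c (f 0) ≠ c (f 1)) (h1 : c (f 0) ≠ c (f 2)) (h2 : c (f 1) ≠ c (f 5))
    (h3 : c (f 2) ≠ c (f 5)) (h4 : c (f 3) ≠ c (f 5)) (h5 : c (f 4) ≠ c (f 5)) :
    ∃ f : HB ↪g G, Injective (fun w => c (f w)) := by
  refine mkEmb c f hf hadj ?_
  intro i j hij hn
  have key : ∀ i j : Fin 6, i < j → ¬ HB.Adj i j → (i = 0 ∧ j = 1) ∨ (i = 0 ∧ j = 2) ∨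
      (i = 1 ∧ j = 5) ∨ (i = 2 ∧ j = 5) ∨ (i = 3 ∧ j = 5) ∨ (i = 4 ∧ j = 5) := by decide
  rcases key i j hij hn with ⟨rfl, rfl⟩ | ⟨rfl, rfl⟩ | ⟨rfl, rfl⟩ | ⟨rfl, rfl⟩ | ⟨rfl, rfl⟩ |
    ⟨rfl, rfl⟩ <;> assumption

theorem pick1 {x y z : ℕ} (a b : ℕ) (xy : x ≠ y) (xz : x ≠ z) (yz : y ≠ z) :
    (x ≠ a ∧ x ≠ b) ∨ (y ≠ a ∧ y ≠ b) ∨ (z ≠ a ∧ z ≠ b) := by
  by_contra h
  simp only [not_or, not_and_or, not_not] at h
  obtain ⟨h1, h2, h3⟩ := h
  rcases h1 with rfl | rfl <;> rcases h2 with rfl | rfl <;> rcases h3 with rfl | rfl <;> simp_all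

theorem pick2 {x y z : ℕ} (a : ℕ) (xy : x ≠ y) (xz : x ≠ z) (yz : y ≠ z) :
    (x ≠ a ∧ y ≠ a) ∨ (x ≠ a ∧ z ≠ a) ∨ (y ≠ a ∧ z ≠ a) := by
  by_cases h : x = a
  · subst h
    exact Or.inr (Or.inr ⟨xy.symm, xz.symm⟩)
  · by_cases h' : y = a
    · subst h'
      exact Or.inr (Or.inl ⟨h, yz.symm⟩)
    · exact Or.inl ⟨h, h'⟩

theorem other {a p q r x : ℕ} (h : ¬ (a ≠ p ∧ a ≠ q ∧ a ≠ r)) (xp : x ≠ p) (xq : x ≠ q)
    (xr : x ≠ r) : x ≠ a := by
  rintro rfl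
  exact h ⟨xp, xq, xr⟩

theorem GA_forces (c : GA.Coloring ℕ) :
    (∃ f : HA ↪g GA, Injective (fun w => c (f w))) ∨
      (∃ f : HB ↪g GA, Injective (fun w => c (f w))) := by
  have q12 : c 1 ≠ c 2 := c.valid (by decide)
  have q13 : c 1 ≠ c 3 := c.valid (by decide)
  have q14 : c 1 ≠ c 4 := c.valid (by decide)
  have q15 : c 1 ≠ c 5 := c.valid (by decide)
  have q16 : c 1 ≠ c 6 := c.valid (by decide)
  have q23 : c 2 ≠ c 3 := c.valid (by decide)
  have q24 : c 2 ≠ c 4 := c.valid (by decide)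
  have q25 : c 2 ≠ c 5 := c.valid (by decide)
  have q26 : c 2 ≠ c 6 := c.valid (by decide)
  have q34 : c 3 ≠ c 4 := c.valid (by decide)
  have q35 : c 3 ≠ c 5 := c.valid (by decide)
  have q36 : c 3 ≠ c 6 := c.valid (by decide)
  have q45 : c 4 ≠ c 5 := c.valid (by decide)
  have q46 : c 4 ≠ c 6 := c.valid (by decide)
  have q56 : c 5 ≠ c 6 := c.valid (by decide)
  have q07 : c 0 ≠ c 7 := c.valid (by decide)
  have q47 : c 4 ≠ c 7 := c.valid (by decide)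
  have q57 : c 5 ≠ c 7 := c.valid (by decide)
  have q67 : c 6 ≠ c 7 := c.valid (by decide)
  by_cases hX : c 0 ≠ c 4 ∧ c 0 ≠ c 5 ∧ c 0 ≠ c 6
  · left
    obtain ⟨x4, x5, x6⟩ := hX
    have hw := pick1 (c 0) (c 7) q12 q13 q23
    rcases hw with ⟨w1, w2⟩ | ⟨w1, w2⟩ | ⟨w1, w2⟩
    · exact embA c ![7, 4, 5, 6, 1, 0] (by decide) (by decide) w2.symm x4.symm x5.symm x6.symm w1
    · exact embA c ![7, 4, 5, 6, 2, 0] (by decide) (by decide) w2.symm x4.symm x5.symm x6.symm w1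
    · exact embA c ![7, 4, 5, 6, 3, 0] (by decide) (by decide) w2.symm x4.symm x5.symm x6.symm w1
  · right
    have hj := pick2 (c 7) q12 q13 q23
    have x1 : c 1 ≠ c 0 := other hX q14 q15 q16
    have x2 : c 2 ≠ c 0 := other hX q24 q25 q26
    have x3 : c 3 ≠ c 0 := other hX q34 q35 q36
    have hk := pick2 (c 0) q45 q46 q56
    rcases hj with ⟨w1, w2⟩ | ⟨w1, w2⟩ | ⟨w1, w2⟩ <;> rcases hk with ⟨k1, k2⟩ | ⟨k1, k2⟩ | ⟨k1, k2⟩
    · exact embB c ![7, 1, 2, 4, 5, 0] (by decide) (by decide) w1.symm w2.symm x1 x2 k1 k2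
    · exact embB c ![7, 1, 2, 4, 6, 0] (by decide) (by decide) w1.symm w2.symm x1 x2 k1 k2
    · exact embB c ![7, 1, 2, 5, 6, 0] (by decide) (by decide) w1.symm w2.symm x1 x2 k1 k2
    · exact embB c ![7, 1, 3, 4, 5, 0] (by decide) (by decide) w1.symm w2.symm x1 x3 k1 k2
    · exact embB c ![7, 1, 3, 4, 6, 0] (by decide) (by decide) w1.symm w2.symm x1 x3 k1 k2
    · exact embB c ![7, 1, 3, 5, 6, 0] (by decide) (by decide) w1.symm w2.symm x1 x3 k1 k2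
    · exact embB c ![7, 2, 3, 4, 5, 0] (by decide) (by decide) w1.symm w2.symm x2 x3 k1 k2
    · exact embB c ![7, 2, 3, 4, 6, 0] (by decide) (by decide) w1.symm w2.symm x2 x3 k1 k2
    · exact embB c ![7, 2, 3, 5, 6, 0] (by decide) (by decide) w1.symm w2.symm x2 x3 k1 k2

theorem GC_forcesA : Arrows GC HA := by
  intro c
  have q34 : c 3 ≠ c 4 := c.valid (by decide)
  have q35 : c 3 ≠ c 5 := c.valid (by decide)
  have q36 : c 3 ≠ c 6 := c.valid (by decide)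
  have q37 : c 3 ≠ c 7 := c.valid (by decide)
  have q38 : c 3 ≠ c 8 := c.valid (by decide)
  have q45 : c 4 ≠ c 5 := c.valid (by decide)
  have q46 : c 4 ≠ c 6 := c.valid (by decide)
  have q47 : c 4 ≠ c 7 := c.valid (by decide)
  have q48 : c 4 ≠ c 8 := c.valid (by decide)
  have q56 : c 5 ≠ c 6 := c.valid (by decide)
  have q57 : c 5 ≠ c 7 := c.valid (by decide)
  have q58 : c 5 ≠ c 8 := c.valid (by decide)
  have q67 : c 6 ≠ c 7 := c.valid (by decide)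
  have q68 : c 6 ≠ c 8 := c.valid (by decide)
  have q78 : c 7 ≠ c 8 := c.valid (by decide)
  by_cases hX : c 0 ≠ c 3 ∧ c 0 ≠ c 4 ∧ c 0 ≠ c 5
  · obtain ⟨x3, x4, x5⟩ := hX
    have hw := pick1 (c 0) (c 2) q67 q68 q78
    rcases hw with ⟨w1, w2⟩ | ⟨w1, w2⟩ | ⟨w1, w2⟩
    · exact embA c ![2, 3, 4, 5, 6, 0] (by decide) (by decide) w2.symm x3.symm x4.symm x5.symm w1
    · exact embA c ![2, 3, 4, 5, 7, 0] (by decide) (by decide) w2.symm x3.symm x4.symm x5.symm w1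
    · exact embA c ![2, 3, 4, 5, 8, 0] (by decide) (by decide) w2.symm x3.symm x4.symm x5.symm w1
  · have x6 : c 6 ≠ c 0 := other hX q36.symm q46.symm q56.symm
    have x7 : c 7 ≠ c 0 := other hX q37.symm q47.symm q57.symm
    have x8 : c 8 ≠ c 0 := other hX q38.symm q48.symm q58.symm
    have hw := pick1 (c 0) (c 1) q34 q35 q45
    rcases hw with ⟨w1, w2⟩ | ⟨w1, w2⟩ | ⟨w1, w2⟩
    · exact embA c ![1, 6, 7, 8, 3, 0] (by decide) (by decide) w2.symm x6 x7 x8 w1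
    · exact embA c ![1, 6, 7, 8, 4, 0] (by decide) (by decide) w2.symm x6 x7 x8 w1
    · exact embA c ![1, 6, 7, 8, 5, 0] (by decide) (by decide) w2.symm x6 x7 x8 w1

theorem GC_forcesB : Arrows GC HB := by
  intro c
  have q34 : c 3 ≠ c 4 := c.valid (by decide)
  have q35 : c 3 ≠ c 5 := c.valid (by decide)
  have q36 : c 3 ≠ c 6 := c.valid (by decide)
  have q37 : c 3 ≠ c 7 := c.valid (by decide)
  have q38 : c 3 ≠ c 8 := c.valid (by decide)
  have q45 : c 4 ≠ c 5 := c.valid (by decide)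
  have q46 : c 4 ≠ c 6 := c.valid (by decide)
  have q47 : c 4 ≠ c 7 := c.valid (by decide)
  have q48 : c 4 ≠ c 8 := c.valid (by decide)
  have q56 : c 5 ≠ c 6 := c.valid (by decide)
  have q57 : c 5 ≠ c 7 := c.valid (by decide)
  have q58 : c 5 ≠ c 8 := c.valid (by decide)
  have q67 : c 6 ≠ c 7 := c.valid (by decide)
  have q68 : c 6 ≠ c 8 := c.valid (by decide)
  have q78 : c 7 ≠ c 8 := c.valid (by decide)
  by_cases hX : c 0 ≠ c 6 ∧ c 0 ≠ c 7 ∧ c 0 ≠ c 8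
  · obtain ⟨y6, y7, y8⟩ := hX
    have x6 := y6.symm
    have x7 := y7.symm
    have x8 := y8.symm
    have hj := pick2 (c 2) q67 q68 q78
    have hk := pick2 (c 0) q34 q35 q45
    rcases hj with ⟨w1, w2⟩ | ⟨w1, w2⟩ | ⟨w1, w2⟩ <;> rcases hk with ⟨k1, k2⟩ | ⟨k1, k2⟩ | ⟨k1, k2⟩
    · exact embB c ![2, 6, 7, 3, 4, 0] (by decide) (by decide) w1.symm w2.symm x6 x7 k1 k2
    · exact embB c ![2, 6, 7, 3, 5, 0] (by decide) (by decide) w1.symm w2.symm x6 x7 k1 k2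
    · exact embB c ![2, 6, 7, 4, 5, 0] (by decide) (by decide) w1.symm w2.symm x6 x7 k1 k2
    · exact embB c ![2, 6, 8, 3, 4, 0] (by decide) (by decide) w1.symm w2.symm x6 x8 k1 k2
    · exact embB c ![2, 6, 8, 3, 5, 0] (by decide) (by decide) w1.symm w2.symm x6 x8 k1 k2
    · exact embB c ![2, 6, 8, 4, 5, 0] (by decide) (by decide) w1.symm w2.symm x6 x8 k1 k2
    · exact embB c ![2, 7, 8, 3, 4, 0] (by decide) (by decide) w1.symm w2.symm x7 x8 k1 k2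
    · exact embB c ![2, 7, 8, 3, 5, 0] (by decide) (by decide) w1.symm w2.symm x7 x8 k1 k2
    · exact embB c ![2, 7, 8, 4, 5, 0] (by decide) (by decide) w1.symm w2.symm x7 x8 k1 k2
  · have x3 : c 3 ≠ c 0 := other hX q36 q37 q38
    have x4 : c 4 ≠ c 0 := other hX q46 q47 q48
    have x5 : c 5 ≠ c 0 := other hX q56 q57 q58
    have hj := pick2 (c 1) q34 q35 q45
    have hk := pick2 (c 0) q67 q68 q78
    rcases hj with ⟨w1, w2⟩ | ⟨w1, w2⟩ | ⟨w1, w2⟩ <;> rcases hk with ⟨k1, k2⟩ | ⟨k1, k2⟩ | ⟨k1, k2⟩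
    · exact embB c ![1, 3, 4, 6, 7, 0] (by decide) (by decide) w1.symm w2.symm x3 x4 k1 k2
    · exact embB c ![1, 3, 4, 6, 8, 0] (by decide) (by decide) w1.symm w2.symm x3 x4 k1 k2
    · exact embB c ![1, 3, 4, 7, 8, 0] (by decide) (by decide) w1.symm w2.symm x3 x4 k1 k2
    · exact embB c ![1, 3, 5, 6, 7, 0] (by decide) (by decide) w1.symm w2.symm x3 x5 k1 k2
    · exact embB c ![1, 3, 5, 6, 8, 0] (by decide) (by decide) w1.symm w2.symm x3 x5 k1 k2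
    · exact embB c ![1, 3, 5, 7, 8, 0] (by decide) (by decide) w1.symm w2.symm x3 x5 k1 k2
    · exact embB c ![1, 4, 5, 6, 7, 0] (by decide) (by decide) w1.symm w2.symm x4 x5 k1 k2
    · exact embB c ![1, 4, 5, 6, 8, 0] (by decide) (by decide) w1.symm w2.symm x4 x5 k1 k2
    · exact embB c ![1, 4, 5, 7, 8, 0] (by decide) (by decide) w1.symm w2.symm x4 x5 k1 k2

theorem rho_HA : rho HA = 9 := by
  apply le_antisymm
  · simpa using rho_le_of_arrows GC_forcesA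
  · have hne : {n : ℕ | ∃ G : SimpleGraph (Fin n), Arrows G HA}.Nonempty := ⟨9, GC, GC_forcesA⟩
    by_contra hlt
    rw [not_le] at hlt
    obtain ⟨G, hG⟩ := Nat.sInf_mem hne
    exact lower keyA _ (by unfold rho at hlt; omega) G hG

theorem rho_HB : rho HB = 9 := by
  apply le_antisymm
  · simpa using rho_le_of_arrows GC_forcesB
  · have hne : {n : ℕ | ∃ G : SimpleGraph (Fin n), Arrows G HB}.Nonempty := ⟨9, GC, GC_forcesB⟩
    by_contra hlt
    rw [not_le] at hlt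
    obtain ⟨G, hG⟩ := Nat.sInf_mem hne
    exact lower keyB _ (by unfold rho at hlt; omega) G hG

theorem join_GA_GC : Arrows (join GA GC) (join HA HB) :=
  join_arrows GA GC HA HB GA_forces GC_forcesA GC_forcesB

theorem rho_join : rho (join HA HB) ≤ 17 := by
  simpa using rho_le_of_arrows join_GA_GC

theorem exists_arrows_join : ∃ G : SimpleGraph (Fin 17), Arrows G (join HA HB) := by
  refine ⟨(join GA GC).map (finSumFinEquiv (m := 8) (n := 9)).toEmbedding, ?_⟩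
  exact join_GA_GC.mono (SimpleGraph.Embedding.map _ _)

end Pool.Agent.R420.RainbowJoin
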